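import Pool.Agent.H414.W1.Phase

/-!
# The slice sum is additive on products of invertible matrices
-/

set_option autoImplicit false
set_option linter.unusedSectionVars false

namespace Pool.Agent.H414.W1

open Finset Pool.Agent.H23R2 H219.Wh Pool.Agent.Y72.Log
open scoped Classical

section contr

variable {I G M : Type*} [Fintype I] [Fintype G] [Group G] [AddCommGroup M] {m : ℕ} [NeZero m]

/-- pointwise products of sums -/
lemma sum_fn {X Y : Type*} [Fintype X] [Fintype Y] (c : ZMod m → X → ℤ) (v : X → Y)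
    (Ψ : (ZMod m → Y) → M) :
    ∑ f : ZMod m → X, (∏ k, c k (f k)) • Ψ (fun k => v (f k)) =
      ∑ u : ZMod m → Y, (∏ k, ∑ x with v x = u k, c k x) • Ψ u := by
  rw [← Finset.sum_fiberwise (s := Finset.univ) (g := fun f : ZMod m → X => fun k => v (f k))]
  apply Finset.sum_congr rfl
  intro u _
  rw [Finset.prod_univ_sum, Finset.sum_smul]
  apply Finset.sum_congr
  · ext f
    simp only [Finset.mem_filter, Finset.mem_univ, true_and, Fintype.mem_piFinset]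
    exact funext_iff
  · intro f hf
    simp only [Fintype.mem_piFinset, Finset.mem_filter, Finset.mem_univ, true_and] at hf
    congr 2
    funext k
    exact hf k

/-- the inner letters -/
lemma contr {A B : I → I → G → ℤ}
    (h : ∀ i i' g, ∑ j, ∑ a, ∑ b, (if a * b = g then A i j a * B j i' b else 0)
      = if i = i' ∧ g = 1 then 1 else 0)
    (x y : ZMod m → I) (Ψ : (ZMod m → G) → M) :
    ∑ f : ZMod m → (I × G × G), (∏ k, A (x k) (f k).1 (f k).2.1 * B (f k).1 (y k) (f k).2.2) •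
      Ψ (fun k => (f k).2.1 * (f k).2.2) = if x = y then Ψ (fun _ => 1) else 0 := by
  have h1 := sum_fn (M := M) (fun (k : ZMod m) (z : I × G × G) =>
    A (x k) z.1 z.2.1 * B z.1 (y k) z.2.2) (fun z => z.2.1 * z.2.2) Ψ
  rw [h1]
  have h2 : ∀ (u : ZMod m → G) (k : ZMod m), ∑ z : I × G × G with z.2.1 * z.2.2 = u k,
      A (x k) z.1 z.2.1 * B z.1 (y k) z.2.2 = if x k = y k ∧ u k = 1 then 1 else 0 := by
    intro u k
    rw [← h (x k) (y k) (u k), Finset.sum_filter, Fintype.sum_prod_type]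
    apply Finset.sum_congr rfl
    intro j _
    rw [Fintype.sum_prod_type]
  simp_rw [h2]
  rw [Finset.sum_eq_single (fun _ => 1)]
  · by_cases hxy : x = y
    · rw [if_pos hxy, Finset.prod_eq_one, one_smul]
      intro k _
      rw [if_pos ⟨congrFun hxy k, rfl⟩]
    · rw [if_neg hxy]
      obtain ⟨k, hk⟩ := Function.ne_iff.1 hxy
      rw [Finset.prod_eq_zero (Finset.mem_univ k), zero_smul]
      rw [if_neg (fun hh => hk hh.1)]
  · intro u _ hu
    obtain ⟨k, hk⟩ := Function.ne_iff.1 hu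
    rw [Finset.prod_eq_zero (Finset.mem_univ k), zero_smul]
    rw [if_neg (fun hh => hk hh.2)]
  · intro hh
    exact absurd (Finset.mem_univ _) hh

end contr

section flat

variable {I G : Type*} [Fintype I] [Fintype G] [Group G] {m : ℕ} [NeZero m] {p : ℕ}
  {P : G → Prop}

/-- words as tuples of functions -/
def e3 : (ZMod m → Yy I G) ≃
    (ZMod m → I) × (ZMod m → I) × (ZMod m → G) × (ZMod m → G) where
  toFun o := (fun k => (o k).1, fun k => (o k).2.1, fun k => (o k).2.2.1, fun k => (o k).2.2.2)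
  invFun x := fun k => (x.1 k, x.2.1 k, x.2.2.1 k, x.2.2.2 k)
  left_inv _ := rfl
  right_inv _ := rfl

lemma Ez_flat (A B : I → I → G → ℤ) (P : G → Prop) (κ : (ZMod m → G) → ZMod m) :
    Ez (id : G → G) A B P κ = ∑ x : (ZMod m → I) × (ZMod m → I) × (ZMod m → G) × (ZMod m → G),
      if (P (W (fun k => x.2.2.1 k * x.2.2.2 k) 0) ∧ κ (fun k => x.2.2.1 k * x.2.2.2 k) = 0) then
        (∏ k, A (x.1 k) (x.2.1 k) (x.2.2.1 k) * B (x.2.1 k) (x.1 (k + 1)) (x.2.2.2 k)) •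
          κ (fun k => x.2.2.2 k * x.2.2.1 (k + 1)) else 0 := by
  unfold Ez
  rw [Finset.sum_filter]
  exact Fintype.sum_equiv e3 _ _ (fun o => rfl)

/-- the type of the double words -/
abbrev F8 (m : ℕ) (I G : Type*) :=
  ((ZMod m → I) × (ZMod m → I) × (ZMod m → I) × (ZMod m → I)) ×
    ((ZMod m → G) × (ZMod m → G) × (ZMod m → G) × (ZMod m → G))

/-- the weight of a double word -/
def w8 (A A' B' B : I → I → G → ℤ) (x : F8 m I G) : ℤ :=
  ∏ k, (A (x.1.1 k) (x.1.2.1 k) (x.2.1 k) * A' (x.1.2.1 k) (x.1.2.2.1 k) (x.2.2.1 k)) *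
    (B' (x.1.2.2.1 k) (x.1.2.2.2 k) (x.2.2.2.1 k) *
      B (x.1.2.2.2 k) (x.1.1 (k + 1)) (x.2.2.2.2 k))

/-- `s t u v` -/
def u8 (x : F8 m I G) : ZMod m → G :=
  fun k => (x.2.1 k * x.2.2.1 k) * (x.2.2.2.1 k * x.2.2.2.2 k)

/-- `t u v s'` -/
def x8 (x : F8 m I G) : ZMod m → G :=
  fun k => (x.2.2.1 k * (x.2.2.2.1 k * x.2.2.2.2 k)) * x.2.1 (k + 1)

/-- `u v s' t'` -/
def v8 (x : F8 m I G) : ZMod m → G :=
  fun k => (x.2.2.2.1 k * x.2.2.2.2 k) * (x.2.1 (k + 1) * x.2.2.1 (k + 1))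

/-- the rotation -/
def sh8 (c : ZMod m) (x : F8 m I G) : F8 m I G :=
  ((shift c x.1.1, shift c x.1.2.1, shift c x.1.2.2.1, shift c x.1.2.2.2),
    (shift c x.2.1, shift c x.2.2.1, shift c x.2.2.2.1, shift c x.2.2.2.2))

lemma sh8_zero (x : F8 m I G) : sh8 0 x = x := by
  unfold sh8
  simp only [shift_zero]

lemma sh8_add (a b : ZMod m) (x : F8 m I G) : sh8 a (sh8 b x) = sh8 (a + b) x := by
  unfold sh8
  simp only [shift_shift]

lemma u8_shift (c : ZMod m) (x : F8 m I G) : u8 (sh8 c x) = shift c (u8 x) := rfl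

lemma x8_shift (c : ZMod m) (x : F8 m I G) : x8 (sh8 c x) = shift c (x8 x) := by
  funext k
  simp only [x8, sh8, shift_apply]
  rw [show k + 1 + c = k + c + 1 by ring]

lemma v8_shift (c : ZMod m) (x : F8 m I G) : v8 (sh8 c x) = shift c (v8 x) := by
  funext k
  simp only [v8, sh8, shift_apply]
  rw [show k + 1 + c = k + c + 1 by ring]

lemma w8_shift (A A' B' B : I → I → G → ℤ) (c : ZMod m) (x : F8 m I G) :
    w8 A A' B' B (sh8 c x) = w8 A A' B' B x := by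
  unfold w8
  refine Fintype.prod_equiv (Equiv.addRight c) _ _ ?_
  intro k
  simp only [sh8, shift_apply, Equiv.coe_addRight]
  rw [show k + 1 + c = k + c + 1 by ring]

lemma W_x8 (x : F8 m I G) : W (x8 x) 0 = (x.2.1 0)⁻¹ * W (u8 x) 0 * x.2.1 0 := by
  have h := W_interleave x.2.1 (fun k => x.2.2.1 k * (x.2.2.2.1 k * x.2.2.2.2 k)) 0
  have h2 : (fun k => x.2.1 k * (x.2.2.1 k * (x.2.2.2.1 k * x.2.2.2.2 k))) = u8 x := by
    funext k
    show _ = (x.2.1 k * x.2.2.1 k) * (x.2.2.2.1 k * x.2.2.2.2 k)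
    group
  rw [h2] at h
  exact h

lemma W_v8 (x : F8 m I G) :
    W (v8 x) 0 = (x.2.1 0 * x.2.2.1 0)⁻¹ * W (u8 x) 0 * (x.2.1 0 * x.2.2.1 0) :=
  W_interleave (fun k => x.2.1 k * x.2.2.1 k) (fun k => x.2.2.2.1 k * x.2.2.2.2 k) 0

lemma P_x8 (hP : IsCls p P) (x : F8 m I G) : P (W (x8 x) 0) ↔ P (W (u8 x) 0) := by
  rw [W_x8]; exact hP.conj_iff _ _

lemma P_v8 (hP : IsCls p P) (x : F8 m I G) : P (W (v8 x) 0) ↔ P (W (u8 x) 0) := by
  rw [W_v8]; exact hP.conj_iff _ _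

/-- the letters of the product -/
def gr3 (y : G × I × G) : G := y.1 * y.2.2
/-- the coefficients of the product -/
def mul3 (A A' : I → I → G → ℤ) : I → I → G × I × G → ℤ :=
  fun i l y => A i y.2.1 y.1 * A' y.2.1 l y.2.2

/-- double words as tuples of functions -/
def e8 : (ZMod m → Yy I (G × I × G)) ≃ F8 m I G where
  toFun o := ((fun k => (o k).1, fun k => (o k).2.2.1.2.1, fun k => (o k).2.1,
      fun k => (o k).2.2.2.2.1),
    (fun k => (o k).2.2.1.1, fun k => (o k).2.2.1.2.2, fun k => (o k).2.2.2.1,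
      fun k => (o k).2.2.2.2.2))
  invFun x := fun k => (x.1.1 k, x.1.2.2.1 k, (x.2.1 k, x.1.2.1 k, x.2.2.1 k),
    (x.2.2.2.1 k, x.1.2.2.2 k, x.2.2.2.2 k))
  left_inv _ := rfl
  right_inv _ := rfl

lemma Ez_flat8 (A A' B' B : I → I → G → ℤ) (P : G → Prop) (κ : (ZMod m → G) → ZMod m) :
    Ez (gr3 : G × I × G → G) (mul3 A A') (mul3 B' B) P κ = ∑ x : F8 m I G,
      if (P (W (u8 x) 0) ∧ κ (u8 x) = 0) then w8 A A' B' B x • κ (v8 x) else 0 := by
  unfold Ez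
  rw [Finset.sum_filter]
  exact Fintype.sum_equiv e8 _ _ (fun o => rfl)

/-- first regrouping -/
def e1 : F8 m I G ≃ (((ZMod m → I) × (ZMod m → I) × (ZMod m → G) × (ZMod m → G)) × (ZMod m → I)) ×
    (ZMod m → I × G × G) where
  toFun x := (((x.1.1, x.1.2.1, x.2.1, x.2.2.2.2), x.1.2.2.2),
    fun k => (x.1.2.2.1 k, x.2.2.1 k, x.2.2.2.1 k))
  invFun y := ((y.1.1.1, y.1.1.2.1, fun k => (y.2 k).1, y.1.2),
    (y.1.1.2.2.1, fun k => (y.2 k).2.1, fun k => (y.2 k).2.2, y.1.1.2.2.2))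
  left_inv _ := rfl
  right_inv _ := rfl

/-- second regrouping -/
def e2 : F8 m I G ≃ (((ZMod m → I) × (ZMod m → I) × (ZMod m → G) × (ZMod m → G)) × (ZMod m → I)) ×
    (ZMod m → I × G × G) where
  toFun x := (((x.1.2.1, x.1.2.2.1, x.2.2.1, x.2.2.2.1), x.1.2.2.2),
    fun k => (x.1.1 (k + 1), x.2.2.2.2 k, x.2.1 (k + 1)))
  invFun y := ((fun k => (y.2 (k - 1)).1, y.1.1.1, y.1.1.2.1, y.1.2),
    (fun k => (y.2 (k - 1)).2.2, y.1.1.2.2.1, y.1.1.2.2.2, fun k => (y.2 k).2.1))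
  left_inv x := by
    simp only [sub_add_cancel]
  right_inv y := by
    simp only [add_sub_cancel_right]

/-- the first contraction -/
lemma first {A A' B' B : I → I → G → ℤ} (h' : IP (id : G → G) A' B') (P : G → Prop)
    (κ : (ZMod m → G) → ZMod m) :
    (∑ x : F8 m I G, if (P (W (u8 x) 0) ∧ κ (u8 x) = 0) then w8 A A' B' B x • κ (x8 x) else 0) =
      Ez (id : G → G) A B P κ := by
  rw [Ez_flat]
  rw [Fintype.sum_equiv e1 _ (fun y => (∏ k, A' (y.1.1.2.1 k) (y.2 k).1 (y.2 k).2.1 *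
      B' (y.2 k).1 (y.1.2 k) (y.2 k).2.2) • (fun u : ZMod m → G =>
      if (P (W (fun k => y.1.1.2.2.1 k * u k * y.1.1.2.2.2 k) 0) ∧
        κ (fun k => y.1.1.2.2.1 k * u k * y.1.1.2.2.2 k) = 0) then
        (∏ k, A (y.1.1.1 k) (y.1.1.2.1 k) (y.1.1.2.2.1 k) *
          B (y.1.2 k) (y.1.1.1 (k + 1)) (y.1.1.2.2.2 k)) •
          κ (fun k => u k * y.1.1.2.2.2 k * y.1.1.2.2.1 (k + 1)) else 0)
      (fun k => (y.2 k).2.1 * (y.2 k).2.2))]
  · rw [Fintype.sum_prod_type]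
    rw [Finset.sum_congr rfl (fun y _ => contr h'.ab y.1.2.1 y.2 (fun u : ZMod m → G =>
      if (P (W (fun k => y.1.2.2.1 k * u k * y.1.2.2.2 k) 0) ∧
        κ (fun k => y.1.2.2.1 k * u k * y.1.2.2.2 k) = 0) then
        (∏ k, A (y.1.1 k) (y.1.2.1 k) (y.1.2.2.1 k) *
          B (y.2 k) (y.1.1 (k + 1)) (y.1.2.2.2 k)) •
          κ (fun k => u k * y.1.2.2.2 k * y.1.2.2.1 (k + 1)) else 0))]
    rw [Fintype.sum_prod_type]
    apply Finset.sum_congr rfl
    intro x _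
    rw [Finset.sum_eq_single x.2.1]
    · rw [if_pos rfl]
      simp only [mul_one, one_mul]
    · intro y _ hy
      exact if_neg (fun hc => hy hc.symm)
    · intro hh
      exact absurd (Finset.mem_univ _) hh
  · intro x
    have e1' : (fun k => (e1 x).1.1.2.2.1 k * (((e1 x).2 k).2.1 * ((e1 x).2 k).2.2) *
        (e1 x).1.1.2.2.2 k) = u8 x := by
      funext k
      show x.2.1 k * (x.2.2.1 k * x.2.2.2.1 k) * x.2.2.2.2 k =
        (x.2.1 k * x.2.2.1 k) * (x.2.2.2.1 k * x.2.2.2.2 k)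
      group
    have e2' : (fun k => (((e1 x).2 k).2.1 * ((e1 x).2 k).2.2) *
        (e1 x).1.1.2.2.2 k * (e1 x).1.1.2.2.1 (k + 1)) = x8 x := by
      funext k
      show x.2.2.1 k * x.2.2.2.1 k * x.2.2.2.2 k * x.2.1 (k + 1) =
        (x.2.2.1 k * (x.2.2.2.1 k * x.2.2.2.2 k)) * x.2.1 (k + 1)
      group
    beta_reduce
    rw [e1', e2']
    by_cases hc : P (W (u8 x) 0) ∧ κ (u8 x) = 0
    · rw [if_pos hc, if_pos hc, smul_smul]
      congr 1
      show w8 A A' B' B x = (∏ k, A' (x.1.2.1 k) (x.1.2.2.1 k) (x.2.2.1 k) *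
        B' (x.1.2.2.1 k) (x.1.2.2.2 k) (x.2.2.2.1 k)) *
        ∏ k, A (x.1.1 k) (x.1.2.1 k) (x.2.1 k) * B (x.1.2.2.2 k) (x.1.1 (k + 1)) (x.2.2.2.2 k)
      unfold w8
      rw [← Finset.prod_mul_distrib]
      apply Finset.prod_congr rfl
      intro k _
      ring
    · rw [if_neg hc, if_neg hc, smul_zero]

/-- the second contraction -/
lemma second {A A' B' B : I → I → G → ℤ} (h : IP (id : G → G) A B) (hP : IsCls p P)
    (κ : (ZMod m → G) → ZMod m) :
    (∑ x : F8 m I G, if (P (W (x8 x) 0) ∧ κ (x8 x) = 0) then w8 A A' B' B x • κ (v8 x) else 0) =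
      Ez (id : G → G) A' B' P κ := by
  rw [Ez_flat]
  rw [Fintype.sum_equiv e2 _ (fun y => (∏ k, B (y.1.2 k) (y.2 k).1 (y.2 k).2.1 *
      A (y.2 k).1 (y.1.1.1 (k + 1)) (y.2 k).2.2) • (fun u : ZMod m → G =>
      if (P (W (fun k => y.1.1.2.2.1 k * y.1.1.2.2.2 k * u k) 0) ∧
        κ (fun k => y.1.1.2.2.1 k * y.1.1.2.2.2 k * u k) = 0) then
        (∏ k, A' (y.1.1.1 k) (y.1.1.2.1 k) (y.1.1.2.2.1 k) *
          B' (y.1.1.2.1 k) (y.1.2 k) (y.1.1.2.2.2 k)) •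
          κ (fun k => y.1.1.2.2.2 k * u k * y.1.1.2.2.1 (k + 1)) else 0)
      (fun k => (y.2 k).2.1 * (y.2 k).2.2))]
  · rw [Fintype.sum_prod_type]
    rw [Finset.sum_congr rfl (fun y _ => contr h.ba y.2 (fun k => y.1.1 (k + 1))
      (fun u : ZMod m → G =>
      if (P (W (fun k => y.1.2.2.1 k * y.1.2.2.2 k * u k) 0) ∧
        κ (fun k => y.1.2.2.1 k * y.1.2.2.2 k * u k) = 0) then
        (∏ k, A' (y.1.1 k) (y.1.2.1 k) (y.1.2.2.1 k) *
          B' (y.1.2.1 k) (y.2 k) (y.1.2.2.2 k)) •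
          κ (fun k => y.1.2.2.2 k * u k * y.1.2.2.1 (k + 1)) else 0))]
    rw [Fintype.sum_prod_type]
    apply Finset.sum_congr rfl
    intro x _
    rw [Finset.sum_eq_single (fun k => x.1 (k + 1))]
    · rw [if_pos rfl]
      simp only [mul_one]
    · intro y _ hy
      exact if_neg (fun hc => hy hc)
    · intro hh
      exact absurd (Finset.mem_univ _) hh
  · intro x
    have e1' : (fun k => (e2 x).1.1.2.2.1 k * (e2 x).1.1.2.2.2 k *
        (((e2 x).2 k).2.1 * ((e2 x).2 k).2.2)) = x8 x := by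
      funext k
      show x.2.2.1 k * x.2.2.2.1 k * (x.2.2.2.2 k * x.2.1 (k + 1)) =
        (x.2.2.1 k * (x.2.2.2.1 k * x.2.2.2.2 k)) * x.2.1 (k + 1)
      group
    have e2' : (fun k => (e2 x).1.1.2.2.2 k * (((e2 x).2 k).2.1 * ((e2 x).2 k).2.2) *
        (e2 x).1.1.2.2.1 (k + 1)) = v8 x := by
      funext k
      show x.2.2.2.1 k * (x.2.2.2.2 k * x.2.1 (k + 1)) * x.2.2.1 (k + 1) =
        (x.2.2.2.1 k * x.2.2.2.2 k) * (x.2.1 (k + 1) * x.2.2.1 (k + 1))
      group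
    beta_reduce
    rw [e1', e2']
    by_cases hc : P (W (x8 x) 0) ∧ κ (x8 x) = 0
    · rw [if_pos hc, if_pos hc, smul_smul]
      congr 1
      show w8 A A' B' B x = (∏ k, B (x.1.2.2.2 k) (x.1.1 (k + 1)) (x.2.2.2.2 k) *
        A (x.1.1 (k + 1)) (x.1.2.1 (k + 1)) (x.2.1 (k + 1))) *
        ∏ k, A' (x.1.2.1 k) (x.1.2.2.1 k) (x.2.2.1 k) * B' (x.1.2.2.1 k) (x.1.2.2.2 k) (x.2.2.2.1 k)
      have h1 : ∏ k, A (x.1.1 (k + 1)) (x.1.2.1 (k + 1)) (x.2.1 (k + 1)) =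
          ∏ k, A (x.1.1 k) (x.1.2.1 k) (x.2.1 k) :=
        Fintype.prod_equiv (Equiv.addRight (1 : ZMod m)) _ _ (fun k => rfl)
      rw [Finset.prod_mul_distrib, h1, ← Finset.prod_mul_distrib, ← Finset.prod_mul_distrib]
      unfold w8
      apply Finset.prod_congr rfl
      intro k _
      ring
    · rw [if_neg hc, if_neg hc, smul_zero]

/-- **additivity** -/
theorem Ez_mul {A A' B' B : I → I → G → ℤ} (h : IP (id : G → G) A B)
    (h' : IP (id : G → G) A' B') (hP : IsCls p P) {κ : (ZMod m → G) → ZMod m} (hκ : IsPh P κ) :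
    Ez (id : G → G) (tot gr3 (mul3 A A')) (tot gr3 (mul3 B' B)) P κ =
      Ez (id : G → G) A B P κ + Ez (id : G → G) A' B' P κ := by
  rw [← Ez_eq, ← EE_tot, Ez_eq, Ez_flat8, ← first h' P κ, ← second h hP κ]
  -- the change of the slice
  have hs := sum_slice (M := ZMod m) (fun c (x : F8 m I G) => sh8 c x) sh8_zero
    (fun a b x => sh8_add a b x) (fun x => P (W (u8 x) 0))
    (fun c x hx => by
      show P (W (u8 (sh8 c x)) 0)
      rw [u8_shift]
      exact (hP.shift_iff _ _).2 hx)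
    (fun x => κ (u8 x)) (fun x => κ (x8 x))
    (fun x hx c => by
      show κ (u8 (sh8 c x)) = _
      rw [u8_shift]
      exact hκ _ hx c)
    (fun x hx c => by
      show κ (x8 (sh8 c x)) = _
      rw [x8_shift]
      exact hκ _ ((P_x8 hP x).2 hx) c)
    (fun x => w8 A A' B' B x • (κ (v8 x) - κ (x8 x)))
    (fun x hx c => by
      show w8 A A' B' B (sh8 c x) • (κ (v8 (sh8 c x)) - κ (x8 (sh8 c x))) = _
      rw [w8_shift, v8_shift, x8_shift, hκ _ ((P_v8 hP x).2 hx) c, hκ _ ((P_x8 hP x).2 hx) c,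
        add_sub_add_right_eq_sub])
  rw [Finset.sum_filter, Finset.sum_filter] at hs
  have e5 : (∑ x : F8 m I G, if (P (W (x8 x) 0) ∧ κ (x8 x) = 0) then
      w8 A A' B' B x • κ (v8 x) else 0) =
      ∑ x : F8 m I G, if (P (W (u8 x) 0) ∧ κ (x8 x) = 0) then
        w8 A A' B' B x • (κ (v8 x) - κ (x8 x)) else 0 := by
    apply Finset.sum_congr rfl
    intro x _
    by_cases hc : P (W (u8 x) 0) ∧ κ (x8 x) = 0
    · rw [if_pos hc, if_pos ⟨(P_x8 hP x).2 hc.1, hc.2⟩, hc.2, sub_zero]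
    · rw [if_neg hc, if_neg]
      rintro ⟨h1, h2⟩
      exact hc ⟨(P_x8 hP x).1 h1, h2⟩
  rw [e5, ← hs, ← Finset.sum_add_distrib]
  apply Finset.sum_congr rfl
  intro x _
  by_cases hc : P (W (u8 x) 0) ∧ κ (u8 x) = 0
  · rw [if_pos hc, if_pos hc, if_pos hc, ← smul_add]
    congr 1
    abel
  · rw [if_neg hc, if_neg hc, if_neg hc, add_zero]

end flat

end Pool.Agent.H414.W1
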