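import Pool.Agent.H414.W1.Tors3

/-!
# All representations of groups which are residually integral unitriangular
-/

set_option autoImplicit false
set_option linter.unusedSectionVars false

namespace Pool.Agent.H414.W1

section main

open Pool.Agent.Y72.Log Pool.Agent.Y72.Dt H219.Wh

universe v

variable {Γ : Type*} [Group Γ] {n d : ℕ}

/-- **Representations with finite image over arbitrary fields** -/
theorem finite_image_sign (A : (Matrix (Fin n) (Fin n) (MonoidAlgebra ℤ Γ))ˣ) (hn : Ru Γ) {L : Type v} [Field L] (ρ : Γ →* Matrix (Fin d) (Fin d) L)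
    (hρ : (Set.range ρ).Finite) :
    DD ρ A.val = ((DD (trv Γ ℤ) A.val ^ d : ℤ) : L) * (ρ (gamA A)).det := by
  let ρu : Γ →* (Matrix (Fin d) (Fin d) L)ˣ := ρ.toHomUnits
  let G := ρu.range
  have hfin : Finite G := by
    have h1 : (Set.range ρu).Finite := by
      apply Set.Finite.of_finite_image (f := Units.val) _ Units.val_injective.injOn
      apply hρ.subset
      rintro _ ⟨_, ⟨g, rfl⟩, rfl⟩
      exact ⟨g, rfl⟩
    exact h1.to_subtype
  let π : Γ →* G := ρu.rangeRestrict
  let ρG : G →* Matrix (Fin d) (Fin d) L := (Units.coeHom _).comp G.subtype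
  have hρG : ρG.comp π = ρ := by
    ext1 g
    rfl
  let B : Matrix (Fin n ⊕ Unit) (Fin n ⊕ Unit) (MonoidAlgebra ℤ Γ) :=
    Matrix.fromBlocks A.val 0 0 (Matrix.of fun _ _ : Unit => MonoidAlgebra.single (gamA A)⁻¹ 1)
  have hB : ∀ (T : Type _) [CommGroup T] [Finite T] (d' : ℕ)
      (ρ' : G →* Matrix (Fin d') (Fin d') (MonoidAlgebra ℤ T)),
      DD ρ' (B.map (mp π)) = 1 ∨ DD ρ' (B.map (mp π)) = -1 := by
    intro T _ _ d' ρ'
    rw [DD_mp, DD_fromBlocks]
    have h1 := tors A hn (ρ'.comp π) (by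
      apply (Set.finite_range ρ').subset
      rintro _ ⟨g, rfl⟩
      exact ⟨π g, rfl⟩)
    exact h1
  have hB0 : TorOK.{v, 0} (B.map (mp π)) := by
    intro T _ _ d' ρ'
    rw [DD_mp, DD_fromBlocks]
    have h1 := tors A hn (ρ'.comp π) (by
      apply (Set.finite_range ρ').subset
      rintro _ ⟨g, rfl⟩
      exact ⟨π g, rfl⟩)
    exact h1
  have h1 := fin_sign hB hB0 (chg (algebraMap L (AlgebraicClosure L)) ρG)
  rw [DD_chg, DD_mp, hρG, DD_fromBlocks] at h1
  have hinj := (algebraMap L (AlgebraicClosure L)).injective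
  have he : eps (B.map (mp π)) = DD (trv Γ ℤ) A.val := by
    unfold eps
    rw [DD_mp, DD_fromBlocks]
    have h3 : (trv G ℤ).comp π = trv Γ ℤ := rfl
    rw [h3]
    have h4 : ((trv Γ ℤ) (gamA A)⁻¹).det = 1 := Matrix.det_one
    rw [h4, mul_one]
  rw [he, Fintype.card_fin] at h1
  have h2 : (ρ (gamA A)).det * (ρ (gamA A)⁻¹).det = 1 := by
    rw [← Matrix.det_mul, ← map_mul, mul_inv_cancel, map_one, Matrix.det_one]
  have h3 : DD ρ A.val * (ρ (gamA A)⁻¹).det = ((DD (trv Γ ℤ) A.val ^ d : ℤ) : L) := by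
    apply hinj
    rw [h1, map_intCast]
  rw [← h3, mul_assoc, mul_comm (ρ (gamA A)⁻¹).det, h2, mul_one]

end main

section fields

open Pool.Agent.Y72.Log Pool.Agent.Y72.Dt H219.Wh

universe u v

variable {H : Type v} [Group H] {n d : ℕ}

/-- **Representations of finitely generated groups over arbitrary fields** -/
theorem all_reps_sign [Group.FG H] (hn : Ru H)
    (A : (Matrix (Fin n) (Fin n) (MonoidAlgebra ℤ H))ˣ)
    {L : Type u} [Field L] (ρ : H →* Matrix (Fin d) (Fin d) L) :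
    DD ρ A.val = ((DD (trv H ℤ) A.val ^ d : ℤ) : L) * (ρ (gamA A)).det := by
  obtain ⟨R, hR, ψ, hψ⟩ := exists_ring ρ
  have hval : chg (R.val.toRingHom) ψ = ρ := by
    ext g i j
    exact hψ g i j
  have h1 : ∀ m : Ideal R, m.IsMaximal → DD ψ A.val -
      ((DD (trv H ℤ) A.val ^ d : ℤ) : R) * (ψ (gamA A)).det ∈ m := by
    intro m hm
    obtain ⟨q, hq, hqm, hfin⟩ := Pool.Agent.H23R2.residue_finite R m
    let i1 : Field (R ⧸ m) := Ideal.Quotient.field m
    have h2 := finite_image_sign A hn (chg (Ideal.Quotient.mk m) ψ) (Set.toFinite _)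
    rw [DD_chg] at h2
    have h3 : (chg (Ideal.Quotient.mk m) ψ (gamA A)).det =
        Ideal.Quotient.mk m (ψ (gamA A)).det := (RingHom.map_det _ _).symm
    rw [h3] at h2
    rw [← Ideal.Quotient.eq_zero_iff_mem, map_sub, h2, map_mul, map_intCast, sub_self]
  have h2 : DD ψ A.val - ((DD (trv H ℤ) A.val ^ d : ℤ) : R) * (ψ (gamA A)).det = 0 := by
    have hJ : IsJacobsonRing R := isJacobsonRing_of_finiteType (A := ℤ)
    have h3 : (⊥ : Ideal R).jacobson = ⊥ := hJ.out (Ideal.isPrime_bot (α := R)).isRadical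
    have h4 : DD ψ A.val - ((DD (trv H ℤ) A.val ^ d : ℤ) : R) * (ψ (gamA A)).det ∈
        (⊥ : Ideal R).jacobson := by
      rw [Ideal.jacobson, Ideal.mem_sInf]
      rintro m ⟨_, hm⟩
      exact h1 m hm
    rw [h3, Ideal.mem_bot] at h4
    exact h4
  have h4 := congrArg (R.val.toRingHom) h2
  rw [map_sub, map_mul, map_intCast, map_zero, ← DD_chg, hval, RingHom.map_det, sub_eq_zero] at h4
  rw [h4, ← hval]
  rfl

end fields

end Pool.Agent.H414.W1
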