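import Pool.Graph.R_seed8.Y72.Log.Push

/-!
# The slice sum modulo `m`: change of the phase and of the length of the words
-/

set_option autoImplicit false
set_option linter.unusedSectionVars false

namespace Pool.Agent.H414.W1

open Finset Pool.Agent.H23R2 H219.Wh Pool.Agent.Y72.Log
open scoped Classical

section main

variable {I S : Type*} [Fintype I] [Fintype S] {Γ : Type*} [Group Γ] {gr : S → Γ}
  {A B : I → I → S → ℤ} {p : ℕ} {P : Γ → Prop} {m r : ℕ} [NeZero m] [NeZero r]

/-- the slice sum with values in `ZMod m` -/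
noncomputable def Ez (gr : S → Γ) (A B : I → I → S → ℤ) (P : Γ → Prop)
    (κ : (ZMod m → Γ) → ZMod m) : ZMod m :=
  ∑ o : ZMod m → Yy I S with (RR gr P o ∧ κ (UU gr o) = 0), wt A B o • κ (VV gr o)

lemma Ez_eq (gr : S → Γ) (A B : I → I → S → ℤ) (P : Γ → Prop)
    (κ : (ZMod m → Γ) → ZMod m) : ((EE gr A B P κ : ℤ) : ZMod m) = Ez gr A B P κ := by
  unfold EE Ez
  rw [Int.cast_sum]
  apply Finset.sum_congr rfl
  intro o _
  rw [Int.cast_mul, Int.cast_natCast, ZMod.natCast_zmod_val, zsmul_eq_mul]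

/-- general slices and integrands -/
lemma Ez_slice (hP : IsCls p P) {κ κ1 : (ZMod m → Γ) → ZMod m}
    (hκ : IsPh P κ) (hκ1 : IsPh P κ1) :
    Ez gr A B P κ = ∑ o : ZMod m → Yy I S with (RR gr P o ∧ κ1 (UU gr o) = 0),
      wt A B o • (κ (VV gr o) - κ (UU gr o)) := by
  have h1 : Ez gr A B P κ = ∑ o : ZMod m → Yy I S with (RR gr P o ∧ κ (UU gr o) = 0),
      wt A B o • (κ (VV gr o) - κ (UU gr o)) := by
    unfold Ez
    apply Finset.sum_congr rfl
    intro o ho
    simp only [Finset.mem_filter, Finset.mem_univ, true_and] at ho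
    rw [ho.2, sub_zero]
  rw [h1]
  apply sum_slice (fun c o => shift c o) (fun o => shift_zero o)
      (fun a b o => shift_shift a b o) (RR gr P) (fun c o ho => (RR_shift hP o c).2 ho)
      (fun o => κ (UU gr o)) (fun o => κ1 (UU gr o))
  · intro o ho c
    show κ (UU gr (shift c o)) = _
    rw [UU_shift]
    exact hκ _ ho c
  · intro o ho c
    show κ1 (UU gr (shift c o)) = _
    rw [UU_shift]
    exact hκ1 _ ho c
  · intro o ho c
    show wt A B (shift c o) • (κ (VV gr (shift c o)) - κ (UU gr (shift c o))) = _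
    rw [wt_shift, VV_shift, UU_shift, hκ _ ho c, hκ _ ((RR_VV hP o).2 ho) c,
      add_sub_add_right_eq_sub]

/-- invariant functions do not contribute -/
lemma inv_zero (h : IP gr A B) (hP : IsCls p P) {κ1 : (ZMod m → Γ) → ZMod m}
    (hκ1 : IsPh P κ1) {M : Type*} [AddCommGroup M] (G : (ZMod m → Γ) → M)
    (hG : ∀ g, P (W g 0) → ∀ c, G (shift c g) = G g) :
    ∑ o : ZMod m → Yy I S with (RR gr P o ∧ κ1 (UU gr o) = 0),
      wt A B o • (G (VV gr o) - G (UU gr o)) = 0 := by
  have hGU : ∑ o : ZMod m → Yy I S with (RR gr P o ∧ κ1 (UU gr o) = 0),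
      wt A B o • G (UU gr o) = 0 := by
    convert sum_UU (gr := gr) h hP (fun g => κ1 g = 0) G
  have hGV : ∑ o : ZMod m → Yy I S with (RR gr P o ∧ κ1 (UU gr o) = 0),
      wt A B o • G (VV gr o) = 0 := by
    have hV0 := sum_VV (gr := gr) h hP (fun g => κ1 g = 0) G
    rw [← hV0]
    convert sum_slice (fun c o => shift c o) (fun o => shift_zero o)
      (fun a b o => shift_shift a b o) (RR gr P) (fun c o ho => (RR_shift hP o c).2 ho)
      (fun o => κ1 (UU gr o)) (fun o => κ1 (VV gr o)) ?_ ?_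
      (fun o => wt A B o • G (VV gr o)) ?_
    · intro o ho c
      show κ1 (UU gr (shift c o)) = _
      rw [UU_shift]
      exact hκ1 _ ho c
    · intro o ho c
      show κ1 (VV gr (shift c o)) = _
      rw [VV_shift]
      exact hκ1 _ ((RR_VV hP o).2 ho) c
    · intro o ho c
      show wt A B (shift c o) • G (VV gr (shift c o)) = _
      rw [wt_shift, VV_shift, hG _ ((RR_VV hP o).2 ho)]
  simp_rw [smul_sub]
  rw [Finset.sum_sub_distrib, hGU, hGV, sub_zero]

/-- **the slice sum does not depend on the phase** -/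
theorem Ez_phase (h : IP gr A B) (hP : IsCls p P) {κ κ1 : (ZMod m → Γ) → ZMod m}
    (hκ : IsPh P κ) (hκ1 : IsPh P κ1) : Ez gr A B P κ = Ez gr A B P κ1 := by
  have h0 := inv_zero (gr := gr) (A := A) (B := B) h hP hκ1 (fun g => κ g - κ1 g)
    (fun g hg c => by rw [hκ g hg c, hκ1 g hg c, add_sub_add_right_eq_sub])
  rw [Ez_slice hP hκ hκ1, Ez_slice hP hκ1 hκ1, ← sub_eq_zero, ← Finset.sum_sub_distrib]
  refine Eq.trans ?_ h0
  apply Finset.sum_congr rfl
  intro o _
  rw [← smul_sub]
  congr 1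
  abel

/-- **change of the length of the words** -/
theorem Ez_block (h : IP gr A B) (hP : IsCls p P) [NeZero (m * r)]
    {κ : (ZMod m → Γ) → ZMod m} (hκ : IsPh P κ)
    {κ1 : (ZMod (m * r) → Γ) → ZMod (m * r)} (hκ1 : IsPh P κ1) :
    ZMod.castHom (dvd_mul_right m r) (ZMod m) (Ez gr A B P κ1) = Ez gr A B P κ := by
  let cst : ZMod (m * r) →+* ZMod m := ZMod.castHom (dvd_mul_right m r) (ZMod m)
  have hcemb : ∀ n : ℕ, cst ((n : ℕ) : ZMod (m * r)) = (n : ZMod m) := fun n => map_natCast _ n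
  -- the invariant function
  let G : (ZMod (m * r) → Γ) → ZMod m := fun g => sp κ g - cst (κ1 g)
  have hG1 : ∀ g, P (W g 0) → G (shift 1 g) = G g := by
    intro g hg
    show sp κ (shift 1 g) - cst (κ1 (shift 1 g)) = sp κ g - cst (κ1 g)
    rw [sp_shift_one hP hκ g hg, hκ1 g hg 1, map_add, map_one]
    abel
  have hG : ∀ g, P (W g 0) → ∀ c, G (shift c g) = G g := by
    intro g hg c
    have h1 : ∀ n : ℕ, G (shift (n : ZMod (m * r)) g) = G g := by
      intro n
      induction n with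
      | zero => rw [Nat.cast_zero, shift_zero]
      | succ n ih =>
        have h2 : shift ((n + 1 : ℕ) : ZMod (m * r)) g = shift 1 (shift (n : ZMod (m * r)) g) := by
          rw [shift_shift]
          congr 1
          push_cast
          ring
        rw [h2, hG1 _ ((hP.shift_iff g _).2 hg), ih]
    rw [← ZMod.natCast_zmod_val c]
    exact h1 _
  have h0 := inv_zero (gr := gr) (A := A) (B := B) h hP hκ1 G hG
  have e0 : cst (Ez gr A B P κ1) =
      ∑ o : ZMod (m * r) → Yy I S with (RR gr P o ∧ κ1 (UU gr o) = 0),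
        wt A B o • (sp κ (VV gr o) - sp κ (UU gr o)) := by
    unfold Ez
    rw [map_sum, ← sub_eq_zero, ← Finset.sum_sub_distrib, ← neg_eq_zero, ← h0,
      ← Finset.sum_neg_distrib]
    apply Finset.sum_congr rfl
    intro o ho
    simp only [Finset.mem_filter, Finset.mem_univ, true_and] at ho
    rw [map_zsmul, ← smul_sub, ← smul_neg]
    congr 1
    show - (cst (κ1 (VV gr o)) - (sp κ (VV gr o) - sp κ (UU gr o))) =
      (sp κ (VV gr o) - cst (κ1 (VV gr o))) - (sp κ (UU gr o) - cst (κ1 (UU gr o)))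
    rw [ho.2, map_zero]
    abel
  show cst (Ez gr A B P κ1) = _
  rw [e0]
  -- the averaged phase
  have h4 : ∀ o : ZMod (m * r) → Yy I S, wt A B o • (sp κ (VV gr o) - sp κ (UU gr o)) =
      ∑ j ∈ range r, (fun o => wt A B o • (κ (bl (VV gr o)) - κ (bl (UU gr o))))
        (shift (j : ZMod (m * r)) o) := by
    intro o
    simp only [wt_shift]
    rw [← Finset.smul_sum]
    congr 1
    unfold sp
    rw [← Finset.sum_sub_distrib]
    apply Finset.sum_congr rfl
    intro j _
    rw [VV_shift, UU_shift]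
  simp_rw [h4]
  have hblU : ∀ o : ZMod (m * r) → Yy I S, RR gr P o → ∀ c : ZMod m,
      κ (bl (UU gr (shift (emb m r c) o))) = κ (bl (UU gr o)) + c := by
    intro o ho c
    rw [UU_shift, bl_shift]
    exact hκ _ (by rw [W_bl]; exact ho) c
  have hblV : ∀ o : ZMod (m * r) → Yy I S, RR gr P o → ∀ c : ZMod m,
      κ (bl (VV gr (shift (emb m r c) o))) = κ (bl (VV gr o)) + c := by
    intro o ho c
    rw [VV_shift, bl_shift]
    exact hκ _ (by rw [W_bl]; exact (RR_VV hP o).2 ho) c
  have h5 := sum_block (m := m) (r := r) (fun c (o : ZMod (m * r) → Yy I S) => shift c o)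
    (fun o => shift_zero o)
    (fun a b o => shift_shift a b o) (RR gr P) (fun c o ho => (RR_shift hP o c).2 ho)
    (fun o => κ1 (UU gr o)) (by
        intro o ho c
        show κ1 (UU gr (shift c o)) = _
        rw [UU_shift]
        exact hκ1 _ ho c)
    (fun o => κ (bl (UU gr o))) hblU
    (fun o => wt A B o • (κ (bl (VV gr o)) - κ (bl (UU gr o)))) (by
      intro o ho c
      show wt A B (shift (emb m r c) o) • (_ : ZMod m) = _
      rw [wt_shift, hblU o ho, hblV o ho, add_sub_add_right_eq_sub])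
  rw [h5]
  -- contraction
  let Θ : (ZMod m → Yy I S) → (ZMod (m * r) → I × Γ) → ZMod m := fun hd t =>
    if P (W (fun j => (t j).2) 0) ∧ κ (bl fun j => (t j).2) = 0 then
      (κ (fun k => (gr (hd k).2.2.1)⁻¹ * bl (fun j => (t j).2) k * gr (hd (k + 1)).2.2.1))
    else 0
  have h6 := sum_contract (gr := gr) (m := m) (r := r) h Θ
  have h7 : ∀ o : ZMod (m * r) → Yy I S, Θ (head o) (TT gr o) =
      if (RR gr P o ∧ κ (bl (UU gr o)) = 0) then (κ (bl (VV gr o))) else 0 := by
    intro o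
    have e2 : (fun k => (gr (head o k).2.2.1)⁻¹ * bl (UU gr o) k *
        gr (head o (k + 1)).2.2.1) = bl (VV gr o) := by
      funext k
      exact (bl_interleave (la gr o) (lb gr o) k).symm
    show (if P (W (UU gr o) 0) ∧ κ (bl (UU gr o)) = 0 then
      (κ (fun k => (gr (head o k).2.2.1)⁻¹ * bl (UU gr o) k * gr (head o (k + 1)).2.2.1))
      else 0) = _
    rw [e2]
    rfl
  have h8 : ∀ hd : ZMod m → Yy I S, Θ hd (tt (r := r) gr hd) =
      if (RR gr P hd ∧ κ (UU gr hd) = 0) then (κ (VV gr hd)) else 0 := by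
    intro hd
    have e1 : bl (fun j => (tt (r := r) gr hd j).2) = UU gr hd := bl_tt hd
    have e2 : (fun k => (gr (hd k).2.2.1)⁻¹ * UU gr hd k * gr (hd (k + 1)).2.2.1) =
        VV gr hd := by
      funext k
      show (gr (hd k).2.2.1)⁻¹ * (gr (hd k).2.2.1 * gr (hd k).2.2.2) * gr (hd (k + 1)).2.2.1 =
        gr (hd k).2.2.2 * gr (hd (k + 1)).2.2.1
      group
    have e3 : W (fun j => (tt (r := r) gr hd j).2) 0 = W (UU gr hd) 0 := by
      rw [← e1, W_bl]
    show (if P (W (fun j => (tt (r := r) gr hd j).2) 0) ∧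
        κ (bl fun j => (tt (r := r) gr hd j).2) = 0 then
      (κ (fun k => (gr (hd k).2.2.1)⁻¹ * bl (fun j => (tt (r := r) gr hd j).2) k *
        gr (hd (k + 1)).2.2.1)) else 0) = _
    rw [e1, e2, e3]
    rfl
  simp_rw [h7, h8] at h6
  have h9 : ∑ o : ZMod (m * r) → Yy I S with (RR gr P o ∧ κ (bl (UU gr o)) = 0),
      wt A B o • (κ (bl (VV gr o)) - κ (bl (UU gr o))) =
      ∑ o : ZMod (m * r) → Yy I S, wt A B o •
        (if (RR gr P o ∧ κ (bl (UU gr o)) = 0) then (κ (bl (VV gr o))) else 0) := by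
    rw [Finset.sum_filter]
    apply Finset.sum_congr rfl
    intro o _
    by_cases ho : RR gr P o ∧ κ (bl (UU gr o)) = 0
    · rw [if_pos ho, if_pos ho, ho.2, sub_zero]
    · rw [if_neg ho, if_neg ho, smul_zero]
  rw [h9, h6]
  unfold Ez
  rw [Finset.sum_filter]
  apply Finset.sum_congr rfl
  intro o _
  by_cases ho : RR gr P o ∧ κ (UU gr o) = 0
  · rw [if_pos ho, if_pos ho]
  · rw [if_neg ho, if_neg ho, smul_zero]

end main

end Pool.Agent.H414.W1
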