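import Pool.Agent.H414.W1.Uni

/-!
# The main congruence and the determinants in characteristic zero
-/

set_option autoImplicit false
set_option linter.unusedSectionVars false

namespace Pool.Agent.H414.W1

open Finset Pool.Agent.H23R2 H219.Wh
open Pool.Agent.Y72.Log
open scoped Classical

section trace

variable {I S : Type*} [Fintype I] [Fintype S] {Γ : Type*} [Group Γ] {gr : S → Γ}
  {A B : I → I → S → ℤ}

/-- the congruence for the traces -/
theorem trace_van {Q : Type*} [Group Q] [Fintype Q] {p : ℕ} (hp : p.Prime) (h : IP gr A B)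
    (hb : Ru Γ)
    (φ : Γ →* Q) {P : Q → Prop} (hP : IsCls p P) {a : ℕ} (ha : 1 ≤ a)
    (hnA : NearOne ((p : ℤ) ^ a) (tot (fun s => φ (gr s)) A))
    (hnB : NearOne ((p : ℤ) ^ a) (tot (fun s => φ (gr s)) B)) :
    (p : ℤ) ^ (2 * a) ∣ ∑ g with P g, ∑ i, tot (fun s => φ (gr s)) A i i g := by
  obtain ⟨i, hi⟩ : ∃ i, 2 * a = i + 1 := ⟨2 * a - 1, by omega⟩
  haveI : NeZero (p ^ (i + 1)) := ⟨pow_ne_zero _ hp.ne_zero⟩
  obtain ⟨κ, hκ⟩ := exists_isPh (m := p ^ (i + 1)) hp rfl hP
  have h1 := EE_van3 hb.sep hp h φ hP rfl hκ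
  rw [EE_tot] at h1
  have h2 := near hp hP rfl hnA hnB hκ
  rw [hi] at h2 ⊢
  have h3 := dvd_sub h1 h2
  rwa [sub_sub_cancel] at h3

/-- the congruence for the trace at one element -/
theorem trace_van_single {Q : Type*} [Group Q] [Fintype Q] {p : ℕ} (hp : p.Prime) (h : IP gr A B)
    (hb : Ru Γ)
    (φ : Γ →* Q) {q0 : Q} (hP : IsCls p (fun q => q = q0)) {a : ℕ} (ha : 1 ≤ a)
    (hnA : NearOne ((p : ℤ) ^ a) (tot (fun s => φ (gr s)) A))
    (hnB : NearOne ((p : ℤ) ^ a) (tot (fun s => φ (gr s)) B)) :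
    (p : ℤ) ^ (2 * a) ∣ ∑ i, tot (fun s => φ (gr s)) A i i q0 := by
  have h1 := trace_van hp h hb φ hP ha hnA hnB
  rwa [sum_filter_single q0 _ _ (fun _ => Iff.rfl)] at h1

end trace

section cong

variable {I S : Type*} [Fintype I] [Fintype S] {Γ G : Type*} [Group Γ] [Group G] [Fintype G]
  {gr : S → Γ} {A B : I → I → S → ℤ}

/-- **the main congruence** -/
theorem main_cong {p : ℕ} (hp : p.Prime) (h : IP gr A B)
    (hb : Ru Γ)
    (π : Γ →* G) (hπ : Function.Surjective π) {a : ℕ} (ha : 1 ≤ a)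
    (hnA : NearOne ((p : ℤ) ^ a) (tot (fun s => π (gr s)) A))
    (hnB : NearOne ((p : ℤ) ^ a) (tot (fun s => π (gr s)) B)) {g : G} (hg : p ∣ orderOf g) :
    (p : ℤ) ^ (2 * a) ∣ ∑ x : G, ∑ i, tot (fun s => π (gr s)) A i i (x * g * x⁻¹) := by
  have h1 := trace_van_single hp (ip_res π hπ (Subgroup.zpowers g) h) (hb.subgroup _)
    (toQ π (Subgroup.zpowers g)) (isCls_zpowers hp hg) ha
    (near_res π hπ (Subgroup.zpowers g) hnA) (near_res π hπ (Subgroup.zpowers g) hnB)
  rw [sum_conj_eq g (fun y => ∑ i, tot (fun s => π (gr s)) A i i y)]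
  apply Dvd.dvd.mul_left
  rw [Fintype.sum_prod_type, Finset.sum_comm] at h1
  have h2 : ∑ t : G ⧸ Subgroup.zpowers g, ∑ i : I,
      tot (fun s => π (gr s)) A i i (Quotient.out t * g * (Quotient.out t)⁻¹) =
      ∑ t : G ⧸ Subgroup.zpowers g, ∑ i : I,
      tot (fun s => toQ π (Subgroup.zpowers g) (grR π hπ (Subgroup.zpowers g) gr s))
        (matR π (Subgroup.zpowers g) gr A) (i, t) (i, t) ⟨g, Subgroup.mem_zpowers g⟩ := by
    apply Finset.sum_congr rfl
    intro t _
    apply Finset.sum_congr rfl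
    intro i _
    rw [tot_res]
  rw [h2]
  exact h1

end cong

section mc

variable {Γ G : Type*} [Group Γ] [Group G] [Fintype G] {n : ℕ}

/-- **the congruences for the images of an invertible matrix** -/
theorem mc_of_ru (hb : Ru Γ) (π : Γ →* G) (hπ : Function.Surjective π)
    (A : (Matrix (Fin n) (Fin n) (MonoidAlgebra ℤ Γ))ˣ) : MC (mpU π A) := by
  intro p hp a ha k hk g hg
  obtain ⟨Z, hZ⟩ := hk
  set V := A ^ k with hV
  have hXV : (mpU π A).val ^ k = (mpU π V).val := by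
    rw [hV, mpU, mpU, map_pow, Units.val_pow_eq_pow_val]
  rw [hXV] at hZ ⊢
  have hinv : (mpU π V⁻¹).val = 1 + ((p : ℤ) ^ a) • (-(Z * (mpU π V⁻¹).val)) := by
    have h1 : (mpU π V).val * (mpU π V⁻¹).val = 1 := by
      have h2 : mpU π V⁻¹ = (mpU π V)⁻¹ := map_inv _ _
      rw [h2, Units.mul_inv]
    rw [hZ, add_mul, one_mul, smul_mul_assoc] at h1
    rw [smul_neg, ← sub_eq_add_neg, eq_sub_iff_add_eq]
    exact h1
  set T := supp V.val ∪ supp (V⁻¹).val with hT
  have hTA : ∀ i j g, (V.val i j).coeff g ≠ 0 → g ∈ T :=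
    fun i j g hg => Finset.mem_union_left _ (mem_supp _ i j g hg)
  have hTB : ∀ i j g, ((V⁻¹).val i j).coeff g ≠ 0 → g ∈ T :=
    fun i j g hg => Finset.mem_union_right _ (mem_supp _ i j g hg)
  have hKA : ∀ i j g, (cf V.val i j g).natAbs ≤ Kb V :=
    fun i j g => ((exists_bound V.val).choose_spec i j g).trans (le_max_left _ _)
  have hKB : ∀ i j g, (cf (V⁻¹).val i j g).natAbs ≤ Kb V :=
    fun i j g => ((exists_bound (V⁻¹).val).choose_spec i j g).trans (le_max_right _ _)
  have htA : tot (fun s => π (grl T (Kb V) s)) (lett (cf V.val) T (Kb V)) =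
      fun i j g => ((mpU π V).val i j).coeff g := by
    funext i j g
    exact tot_lett π V.val T (Kb V) hTA hKA i j g
  have htB : tot (fun s => π (grl T (Kb V) s)) (lett (cf (V⁻¹).val) T (Kb V)) =
      fun i j g => ((mpU π V⁻¹).val i j).coeff g := by
    funext i j g
    exact tot_lett π (V⁻¹).val T (Kb V) hTB hKB i j g
  have h1 := main_cong hp (ip_of_invPair (invPair_units V) (Kb V) hKA hKB) hb
    π hπ ha
    (by rw [htA]; exact nearOne_of hZ) (by rw [htB]; exact nearOne_of hinv) hg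
  rw [htA] at h1
  exact h1

end mc

section final

/-- the theorem for groups with the centraliser condition -/
theorem det_ru {Γ F : Type*} [Group Γ] [Field F] [CharZero F] (hb : Ru Γ) {n d : ℕ}
    (A : (Matrix (Fin n) (Fin n) (MonoidAlgebra ℤ Γ))ˣ) (ρ : Γ →* Matrix (Fin d) (Fin d) F)
    (hρ : (Set.range ρ).Finite) : ∃ N : ℕ, 0 < N ∧ (repMat ρ A.val).det ^ N = 1 := by
  let ρu : Γ →* (Matrix (Fin d) (Fin d) F)ˣ := ρ.toHomUnits
  let G := ρu.range
  have hfin : Finite G := by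
    have h1 : (Set.range ρu).Finite := by
      apply Set.Finite.of_finite_image (f := Units.val) _ Units.val_injective.injOn
      apply hρ.subset
      rintro _ ⟨_, ⟨g, rfl⟩, rfl⟩
      exact ⟨g, rfl⟩
    exact h1.to_subtype
  haveI : Fintype G := Fintype.ofFinite G
  let π : Γ →* G := ρu.rangeRestrict
  have hπ : Function.Surjective π := ρu.rangeRestrict_surjective
  let ρ' : G →* Matrix (Fin d) (Fin d) F := (Units.coeHom _).comp G.subtype
  obtain ⟨N, hN, h1⟩ := det_rep (mpU π A) (mc_of_ru hb π hπ A) ρ'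
  refine ⟨N, hN, ?_⟩
  rw [← h1]
  congr 1
  have h2 : ∀ x : MonoidAlgebra ℤ Γ,
      MonoidAlgebra.lift ℤ (Matrix (Fin d) (Fin d) F) Γ ρ x = lr ρ' (mp π x) := by
    intro x
    induction x using MonoidAlgebra.induction_linear with
    | zero => simp only [map_zero]
    | add x y hx hy => simp only [map_add, hx, hy]
    | single g a =>
      rw [mp_single, lr_single, MonoidAlgebra.lift_single]
      rfl
  have h3 : repMat ρ A.val = blkR (lr ρ') (mpU π A).val := by
    ext1 x y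
    rw [blkR_apply, mpU_val, ← h2]
    rfl
  rw [h3]

end final

end Pool.Agent.H414.W1
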