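import Pool.Agent.H414.W1.Uni

/-!
# Roots in groups which are residually integral unitriangular
-/

set_option autoImplicit false
set_option linter.unusedSectionVars false

namespace Pool.Agent.H414.W1

open Finset
open scoped Classical

section st

variable {n : ℕ}

lemma St.pow' {R : Type*} [CommRing R] {x : Matrix (Fin n) (Fin n) R} (hx : St 1 (x - 1)) (k : ℕ) :
    St 1 (x ^ k - 1) := by
  obtain ⟨X, hX, h1⟩ := hx.pow le_rfl k
  rw [add_sub_cancel] at h1
  have h2 : x ^ k - 1 = k • (x - 1) + X := by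
    rw [h1]
    abel
  rw [h2]
  exact (hx.nsmul k).add (hX.mono (by omega))

/-- difference of powers -/
lemma St.sub_pow {R : Type*} [CommRing R] {j : ℕ} {x y : Matrix (Fin n) (Fin n) R}
    (hx : St 1 (x - 1)) (hy : St 1 (y - 1)) (h : St j (x - y)) (k : ℕ) :
    St j (x ^ k - y ^ k) ∧ ∀ a b : Fin n, (b : ℕ) = a + j →
      (x ^ k - y ^ k) a b = (k : R) * (x - y) a b := by
  induction k with
  | zero =>
    rw [pow_zero, pow_zero, sub_self]
    refine ⟨fun a b _ => rfl, fun a b _ => ?_⟩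
    rw [Nat.cast_zero, zero_mul]
    rfl
  | succ k ih =>
    have h1 : x ^ (k + 1) - y ^ (k + 1) = x ^ k * (x - y) + (x ^ k - y ^ k) * y := by
      rw [mul_sub, sub_mul, pow_succ, pow_succ]
      abel
    have h2 := St.left (hx.pow' k) h
    have h3 := St.right hy ih.1
    rw [h1]
    refine ⟨h2.1.add h3.1, ?_⟩
    intro a b hab
    rw [Matrix.add_apply, h2.2 a b hab, h3.2 a b hab, ih.2 a b hab]
    push_cast
    ring

end st

section roots

variable {H : Type*} [Group H]

/-- unique roots -/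
theorem Ru.inj (hH : Ru H) {k : ℕ} (hk : k ≠ 0) (x y : H) (h : x ^ k = y ^ k) : x = y := by
  by_contra hne
  obtain ⟨n, ψ, h1, h2⟩ := hH (x * y⁻¹) (fun hc => hne (mul_inv_eq_one.1 hc))
  have h3 : ψ x ≠ ψ y := by
    intro hc
    apply h2
    rw [map_mul, hc, ← map_mul, mul_inv_cancel, map_one]
  have h4 : St 1 (ψ x - ψ y) := by
    have h5 : ψ x - ψ y = (ψ x - 1) + (-1 : ℤ) • (ψ y - 1) := by
      rw [neg_smul, one_smul]
      abel
    rw [h5]
    refine (h1 x).add ?_
    intro a b hab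
    rw [Matrix.smul_apply, h1 y a b hab, smul_zero]
  obtain ⟨j, hj, hst, a, b, hab, hne'⟩ := exists_lead h4 (sub_ne_zero.2 h3)
  have h5 := (St.sub_pow (h1 x) (h1 y) hst k).2 a b hab
  rw [← map_pow, ← map_pow, h, sub_self] at h5
  rcases mul_eq_zero.1 h5.symm with h6 | h6
  · exact hk (by exact_mod_cast h6)
  · exact hne' h6

/-- no infinitely divisible elements -/
theorem Ru.div (hH : Ru H) {p : ℕ} (hp : p.Prime) (g : H) (hg : g ≠ 1) :
    ∃ k : ℕ, ∀ x : H, x ^ (p ^ k) ≠ g := by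
  obtain ⟨n, ψ, h1, h2⟩ := hH g hg
  obtain ⟨j, hj, hst, a, b, hab, hne⟩ := exists_lead (h1 g) (sub_ne_zero.2 h2)
  refine ⟨((ψ g - 1) a b).natAbs, ?_⟩
  intro x hx
  set k := p ^ ((ψ g - 1) a b).natAbs with hk
  have hk0 : k ≠ 0 := pow_ne_zero _ hp.ne_zero
  have hx1 : ψ x - 1 ≠ 0 := by
    intro hc
    apply h2
    rw [← hx, map_pow, sub_eq_zero.1 hc, one_pow]
  obtain ⟨j', hj', hst', a', b', hab', hne'⟩ := exists_lead (h1 x) hx1
  have h3 : St 1 ((1 : Matrix (Fin n) (Fin n) ℤ) - 1) := by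
    rw [sub_self]
    exact fun a b _ => rfl
  -- the level of `x` is at least the level of `g`
  have h4 : j ≤ j' := by
    by_contra hc
    have h5 := (St.sub_pow (h1 x) h3 hst' k).2 a' b' hab'
    rw [one_pow, ← map_pow, hx, hst a' b' (by omega)] at h5
    rcases mul_eq_zero.1 h5.symm with h6 | h6
    · exact hk0 (by exact_mod_cast h6)
    · exact hne' h6
  have h5 := (St.sub_pow (h1 x) h3 (hst'.mono h4) k).2 a b hab
  rw [one_pow, ← map_pow, hx] at h5
  have h6 : (k : ℤ) ∣ (ψ g - 1) a b := ⟨_, h5⟩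
  have h7 : k ∣ ((ψ g - 1) a b).natAbs := by
    rw [← Int.natCast_dvd]
    exact h6
  have h8 := Nat.le_of_dvd (Int.natAbs_pos.2 hne) h7
  have h9 : ((ψ g - 1) a b).natAbs < k := Nat.lt_pow_self hp.one_lt
  omega

end roots

end Pool.Agent.H414.W1
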