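import Pool.Agent.H414.W1.Van3
import Pool.Graph.R_seed8.Y72.Log.App

/-!
# Vanishing of the slice sums for groups with many finite quotients
-/

set_option autoImplicit false
set_option linter.unusedSectionVars false

namespace Pool.Agent.H414.W1

open Finset Pool.Agent.H23R2 H219.Wh Pool.Agent.Y72.Log
open scoped Classical

/-- separation in finite quotients -/
def Sep (Γ : Type*) [Group Γ] : Prop :=
  ∀ (T : Finset Γ), (∀ t ∈ T, t ≠ 1) → ∀ N : Subgroup Γ, N.Normal → N.FiniteIndex →
    ∃ (N' : Subgroup Γ) (_ : N'.Normal), N'.FiniteIndex ∧ N' ≤ N ∧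
      (∀ t ∈ T, 3 ∣ orderOf (t : Γ ⧸ N')) ∧
      ∀ t ∈ T, ∀ t' ∈ T, ∀ k : ℕ, k.Coprime (orderOf (t : Γ ⧸ N')) → k % 3 = 1 →
        IsConj ((t : Γ ⧸ N') ^ k) (t' : Γ ⧸ N') → IsConj (t : Γ ⧸ N') (t' : Γ ⧸ N')

section ip

variable {I S : Type*} [Fintype I] [Fintype S] {Γ : Type*} [Group Γ] {gr : S → Γ}
  {A B : I → I → S → ℤ}

lemma ip_map_half {Q : Type*} [Group Q] (φ : Γ →* Q)
    (h : ∀ i i' g, ∑ j, ∑ a, ∑ b, (if gr a * gr b = g then A i j a * B j i' b else 0)
      = if i = i' ∧ g = 1 then 1 else 0) (i i' : I) (q : Q) :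
    ∑ j, ∑ a, ∑ b, (if φ (gr a) * φ (gr b) = q then A i j a * B j i' b else 0)
      = if i = i' ∧ q = 1 then 1 else 0 := by
  set U : Finset Γ := insert 1 ((univ : Finset (S × S)).image (fun y => gr y.1 * gr y.2)) with hU
  have h1 : ∀ j a b, (if φ (gr a) * φ (gr b) = q then A i j a * B j i' b else 0) =
      ∑ g ∈ U with φ g = q, (if gr a * gr b = g then A i j a * B j i' b else 0) := by
    intro j a b
    rw [Finset.sum_filter]
    rw [Finset.sum_eq_single (gr a * gr b)]
    · rw [map_mul]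
      simp only [if_true]
    · intro g _ hg
      have hne : ¬ gr a * gr b = g := fun hc => hg hc.symm
      simp only [hne, if_false, ite_self]
    · intro hc
      exact absurd (Finset.mem_insert_of_mem (Finset.mem_image.2 ⟨(a, b), mem_univ _, rfl⟩)) hc
  simp_rw [h1]
  have h2 : ∑ j, ∑ a, ∑ b, ∑ g ∈ U with φ g = q,
      (if gr a * gr b = g then A i j a * B j i' b else 0) =
      ∑ g ∈ U with φ g = q, ∑ j, ∑ a, ∑ b,
        (if gr a * gr b = g then A i j a * B j i' b else 0) := by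
    symm
    rw [Finset.sum_comm]
    apply Finset.sum_congr rfl
    intro j _
    rw [Finset.sum_comm]
    apply Finset.sum_congr rfl
    intro a _
    rw [Finset.sum_comm]
  rw [h2]
  simp_rw [h]
  rw [Finset.sum_filter, Finset.sum_eq_single 1]
  · rw [map_one]
    by_cases hq : (1 : Q) = q
    · rw [if_pos hq, ← hq]
      simp only [and_true]
    · rw [if_neg hq, if_neg (fun hc => hq hc.2.symm)]
  · intro g _ hg
    have hne : ¬ (i = i' ∧ g = 1) := fun hc => hg hc.2
    simp only [hne, if_false, ite_self]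
  · intro hc
    exact absurd (Finset.mem_insert_self _ _) hc

lemma ip_map {Q : Type*} [Group Q] (φ : Γ →* Q) (h : IP gr A B) :
    IP (fun s => φ (gr s)) A B :=
  ⟨ip_map_half φ h.ab, ip_map_half φ h.ba⟩

lemma ip_tot_half [Fintype Γ]
    (h : ∀ i i' g, ∑ j, ∑ a, ∑ b, (if gr a * gr b = g then A i j a * B j i' b else 0)
      = if i = i' ∧ g = 1 then 1 else 0) (i i' : I) (g : Γ) :
    ∑ j, ∑ a, ∑ b, (if id a * id b = g then tot gr A i j a * tot gr B j i' b else 0)
      = if i = i' ∧ g = 1 then 1 else 0 := by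
  rw [← h i i' g]
  apply Finset.sum_congr rfl
  intro j _
  rw [← Finset.sum_fiberwise (s := univ) (g := gr)]
  apply Finset.sum_congr rfl
  intro a _
  have h1 : ∀ s ∈ (univ : Finset S).filter (fun s => gr s = a),
      ∑ b : S, (if gr s * gr b = g then A i j s * B j i' b else 0) =
      ∑ b : Γ, (if a * b = g then A i j s * tot gr B j i' b else 0) := by
    intro s hs
    rw [Finset.mem_filter] at hs
    rw [← Finset.sum_fiberwise (s := univ) (g := gr)]
    apply Finset.sum_congr rfl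
    intro b _
    unfold tot
    by_cases hab : a * b = g
    · rw [if_pos hab, Finset.mul_sum]
      apply Finset.sum_congr rfl
      intro t ht
      rw [Finset.mem_filter] at ht
      rw [if_pos (by rw [hs.2, ht.2, hab])]
    · rw [if_neg hab]
      apply Finset.sum_eq_zero
      intro t ht
      rw [Finset.mem_filter] at ht
      rw [if_neg (by rw [hs.2, ht.2]; exact hab)]
  rw [Finset.sum_congr rfl h1, Finset.sum_comm]
  apply Finset.sum_congr rfl
  intro b _
  show (if a * b = g then tot gr A i j a * tot gr B j i' b else 0) = _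
  by_cases hab : a * b = g
  · simp only [hab, if_true]
    rw [← Finset.sum_mul]
    rfl
  · simp only [hab, if_false, Finset.sum_const_zero]

lemma ip_tot [Fintype Γ] (h : IP gr A B) : IP (id : Γ → Γ) (tot gr A) (tot gr B) :=
  ⟨ip_tot_half h.ab, ip_tot_half h.ba⟩

end ip

section units

variable {I G : Type*} [Fintype I] [Group G] [Fintype G]

/-- the matrix with given coefficients -/
noncomputable def mk (a : I → I → G → ℤ) : Matrix I I (MonoidAlgebra ℤ G) :=
  Matrix.of fun i j => MonoidAlgebra.ofCoeff (Finsupp.equivFunOnFinite.symm (a i j))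

lemma cf_mk (a : I → I → G → ℤ) : cf (mk a) = a := rfl

lemma mk_mul {a b : I → I → G → ℤ}
    (h : ∀ i i' g, ∑ j, ∑ s, ∑ t, (if (id s : G) * id t = g then a i j s * b j i' t else 0)
      = if i = i' ∧ g = 1 then 1 else 0) : mk a * mk b = 1 := by
  ext1 i i'
  apply MonoidAlgebra.coeff_injective
  ext g
  rw [Matrix.mul_apply, MonoidAlgebra.coeff_sum, Finsupp.finsetSum_apply]
  have h1 := h i i' g
  have h2 : ∀ j, ((mk a i j * mk b j i').coeff g) =
      ∑ s, ∑ t, (if (id s : G) * id t = g then a i j s * b j i' t else 0) := by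
    intro j
    rw [mul_coeff_eq]
    rfl
  simp_rw [h2, h1, Matrix.one_apply]
  by_cases hij : i = i'
  · rw [if_pos hij, one_coeff']
    simp only [hij, true_and]
  · rw [if_neg hij, if_neg (fun hc => hij hc.1)]
    rfl

lemma exists_units {a b : I → I → G → ℤ} (h : IP (id : G → G) a b) :
    ∃ X : (Matrix I I (MonoidAlgebra ℤ G))ˣ, cf X.val = a ∧ cf (X⁻¹).val = b :=
  ⟨⟨mk a, mk b, mk_mul h.ab, mk_mul h.ba⟩, rfl, rfl⟩

/-- the set attached to one element -/
def Rq (q0 : G) (g : G) : Prop :=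
  ∃ k : ℕ, k.Coprime (orderOf q0) ∧ k % 3 = 1 ∧ IsConj (q0 ^ k) g

lemma Ez_q {p : ℕ} (hp : p.Prime) {q0 : G} (h3 : 3 ∣ orderOf q0) (hR : IsCls p (Rq q0))
    (X : (Matrix I I (MonoidAlgebra ℤ G))ˣ) {i m : ℕ} [NeZero m] (hm : m = p ^ (i + 1))
    {κ : (ZMod m → G) → ZMod m} (hκ : IsPh (Rq q0) κ) :
    Ez (id : G → G) (cf X.val) (cf (X⁻¹).val) (Rq q0) κ = 0 := by
  let hC : CommGroup (Subgroup.zpowers q0) :=
    { (inferInstance : Group (Subgroup.zpowers q0)) with
      mul_comm := by
        intro w x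
        obtain ⟨j, hj⟩ := w.2
        obtain ⟨k, hk⟩ := x.2
        apply Subtype.ext
        show (w : G) * x = x * w
        rw [← hj, ← hk]
        exact (Commute.zpow_zpow_self q0 j k) }
  have hF : Fintype (Subgroup.zpowers q0) := Fintype.ofFinite _
  let ι : Subgroup.zpowers q0 →* G := (Subgroup.zpowers q0).subtype
  obtain ⟨e, he⟩ := exists_equiv ι (Subgroup.subtype_injective _)
  have hF2 : Fintype (G ⧸ ι.range) := Fintype.ofFinite _
  let c0 : Subgroup.zpowers q0 := ⟨q0, Subgroup.mem_zpowers q0⟩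
  have hcyc : IsCyclic (Subgroup.zpowers q0) := by
    refine ⟨⟨c0, ?_⟩⟩
    rintro ⟨x, k, hk⟩
    exact ⟨k, Subtype.ext hk⟩
  have hcard : Fintype.card (Subgroup.zpowers q0) = orderOf q0 := by
    rw [← Nat.card_eq_fintype_card, Nat.card_zpowers]
  have hιc : ∀ k : ℕ, ι (c0 ^ k) = q0 ^ k := fun k => rfl
  have hset : Rset ι c0 = Rq q0 := by
    funext g
    apply propext
    constructor
    · rintro ⟨u, hu, hg⟩
      refine ⟨ev u, ?_, hu, ?_⟩
      · rw [← hcard]
        exact ev_coprime u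
      · rw [← hιc]
        exact hg
    · rintro ⟨k, hk1, hk2, hg⟩
      have hn : orderOf q0 ∣ Fintype.card (Subgroup.zpowers q0) := by rw [hcard]
      obtain ⟨u, hu⟩ := exists_ev_modEq (C := Subgroup.zpowers q0) hn (orderOf_pos q0).ne' hk1
      refine ⟨u, ?_, ?_⟩
      · have h4 : ev u % 3 = k % 3 := hu.of_dvd h3
        rw [h4, hk2]
      · rw [hιc]
        have h5 : q0 ^ ev u = q0 ^ k := by
          rw [pow_eq_pow_iff_modEq]
          exact hu
        rw [h5]
        exact hg
  rw [← hset] at hR hκ ⊢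
  exact Ez_R e ι he c0 hp (by rw [hcard]; exact h3) hR X hm hκ

end units

section main

variable {I S : Type*} [Fintype I] [Fintype S] {Γ : Type*} [Group Γ] {gr : S → Γ}
  {A B : I → I → S → ℤ}

lemma isConj_of_pow {G : Type*} [Group G] [Finite G] {x y : G} {k : ℕ}
    (hk : k.Coprime (orderOf x)) (h : IsConj (x ^ k) y) :
    ∃ l : ℕ, IsConj x (y ^ l) := by
  obtain ⟨l, hl⟩ := exists_pow_eq_self_of_coprime hk
  refine ⟨l, ?_⟩
  have h1 := H219.Wh.conj_pow_conj h l
  rwa [hl] at h1

/-- **vanishing of the slice sum** -/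
theorem EE_van3 (hs : Sep Γ) {Q : Type*} [Group Q] [Finite Q] {p : ℕ} (hp : p.Prime)
    (h : IP gr A B) (φ : Γ →* Q) {P : Q → Prop} (hP : IsCls p P) {i m : ℕ} [NeZero m]
    (hm : m = p ^ (i + 1)) {κ : (ZMod m → Q) → ZMod m} (hκ : IsPh P κ) :
    (p : ℤ) ^ (i + 1) ∣ EE (fun s => φ (gr s)) A B P κ := by
  -- the products
  set T0 : Finset Γ := (univ : Finset (ZMod m → Yy I S)).image (fun o => W (UU gr o) 0) with hT0
  set T : Finset Γ := T0.erase 1 with hT
  obtain ⟨N', hnorm, hfin, hle, hord, hsep⟩ := hs T (fun t ht => Finset.ne_of_mem_erase ht)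
    φ.ker inferInstance inferInstance
  have hG' : Finite (Γ ⧸ N') := inferInstance
  have hG'F : Fintype (Γ ⧸ N') := Fintype.ofFinite _
  let π' : Γ →* Γ ⧸ N' := QuotientGroup.mk' N'
  let ψ : Γ ⧸ N' →* Q := QuotientGroup.lift N' φ (fun x hx => hle hx)
  have hψ : ∀ x, ψ (π' x) = φ x := fun x => rfl
  set gr' : S → Γ ⧸ N' := fun s => π' (gr s) with hgr'
  have h1 : EE (fun s => φ (gr s)) A B P κ =
      EE gr' A B (fun g => P (ψ g)) (fun g => κ (fun l => ψ (g l))) :=
    (EE_comp (gr := gr') ψ P κ).symm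
  rw [h1]
  set P' : Γ ⧸ N' → Prop := fun g => P (ψ g) with hP'def
  set κ' : (ZMod m → Γ ⧸ N') → ZMod m := fun g => κ (fun l => ψ (g l)) with hκ'def
  have hP' : IsCls p P' := by
    refine ⟨?_, ?_⟩
    · intro w x hw
      show P (ψ (x⁻¹ * w * x))
      rw [map_mul, map_mul, map_inv]
      exact hP.conj _ _ hw
    · intro x hx
      apply hP.npow (ψ x)
      rw [← map_pow]
      exact hx
  have hκ' : IsPh P' κ' := by
    intro g hg c
    have h2 := hκ (fun l => ψ (g l)) (by rw [W_map]; exact hg) c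
    exact h2
  have hip : IP gr' A B := ip_map π' h
  have hz : Ez gr' A B P' κ' = 0 := by
    unfold Ez
    rw [← Finset.sum_fiberwise_of_maps_to
      (s := (univ : Finset (ZMod m → Yy I S)).filter (fun o => RR gr' P' o ∧ κ' (UU gr' o) = 0))
      (t := ((univ : Finset (ZMod m → Yy I S)).filter
        (fun o => RR gr' P' o ∧ κ' (UU gr' o) = 0)).image
          (fun o => ConjClasses.mk (W (UU gr' o) 0)))
      (g := fun o => ConjClasses.mk (W (UU gr' o) 0))
      (fun o ho => Finset.mem_image_of_mem _ ho)]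
    apply Finset.sum_eq_zero
    intro c hc
    rw [Finset.mem_image] at hc
    obtain ⟨o0, ho0, rfl⟩ := hc
    simp only [Finset.mem_filter, Finset.mem_univ, true_and] at ho0
    -- the element
    set t : Γ := W (UU gr o0) 0 with ht
    have hUU : ∀ o : ZMod m → Yy I S, UU gr' o = fun l => π' (UU gr o l) := by
      intro o
      funext l
      exact (map_mul π' _ _).symm
    have hW : ∀ o : ZMod m → Yy I S, W (UU gr' o) 0 = π' (W (UU gr o) 0) := by
      intro o
      rw [hUU, W_map]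
    have hPt : P' (π' t) := by
      rw [ht, ← hW]
      exact ho0.1
    have ht1 : t ≠ 1 := by
      intro h2
      apply hP'.not_one
      rw [h2, map_one] at hPt
      exact hPt
    have htT : t ∈ T := Finset.mem_erase.2 ⟨ht1, Finset.mem_image.2 ⟨o0, mem_univ _, rfl⟩⟩
    have h3 : 3 ∣ orderOf (π' t) := hord t htT
    -- the set
    have hR : IsCls p (Rq (π' t)) := by
      refine ⟨?_, ?_⟩
      · rintro w x ⟨k, hk1, hk2, hk3⟩
        exact ⟨k, hk1, hk2, hk3.trans (isConj_iff.2 ⟨x⁻¹, by rw [inv_inv]⟩)⟩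
      · rintro x ⟨k, hk1, hk2, hk3⟩
        obtain ⟨l, hl⟩ := isConj_of_pow hk1 hk3
        obtain ⟨y, hy⟩ := isConj_iff.1 hl.symm
        apply hP'.npow (y * x ^ l * y⁻¹)
        rw [conj_pow, ← pow_mul, mul_comm l p, pow_mul, hy]
        exact hPt
    obtain ⟨κ2, hκ2⟩ := exists_isPh (m := m) hp hm hR
    let Pc : Γ ⧸ N' → Prop := fun g => IsConj (π' t) g
    have hPcR : ∀ g, Pc g → Rq (π' t) g := by
      intro g hg
      refine ⟨1, Nat.coprime_one_left _, rfl, ?_⟩
      rw [pow_one]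
      exact hg
    have hPcP : ∀ g, Pc g → P' g := by
      intro g hg
      obtain ⟨y, hy⟩ := isConj_iff.1 hg
      have h4 := (hP'.conj_iff (π' t) y⁻¹).2 hPt
      rw [inv_inv, hy] at h4
      exact h4
    have hPc : IsCls p Pc := by
      refine ⟨?_, ?_⟩
      · intro w x hw
        exact IsConj.trans hw (isConj_iff.2 ⟨x⁻¹, by rw [inv_inv]⟩)
      · intro x hx
        exact hP'.npow x (hPcP _ hx)
    have e1 : ∑ o ∈ (univ : Finset (ZMod m → Yy I S)).filter
        (fun o => RR gr' P' o ∧ κ' (UU gr' o) = 0) with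
          ConjClasses.mk (W (UU gr' o) 0) = ConjClasses.mk (W (UU gr' o0) 0),
        wt A B o • κ' (VV gr' o) = Ez gr' A B Pc κ' := by
      unfold Ez
      rw [Finset.filter_filter]
      apply Finset.sum_congr _ (fun _ _ => rfl)
      ext o
      simp only [Finset.mem_filter, Finset.mem_univ, true_and]
      rw [ConjClasses.mk_eq_mk_iff_isConj]
      constructor
      · rintro ⟨⟨_, h5⟩, h6⟩
        refine ⟨?_, h5⟩
        show IsConj (π' t) (W (UU gr' o) 0)
        rw [ht, ← hW]
        exact h6.symm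
      · rintro ⟨h5, h6⟩
        refine ⟨⟨hPcP _ h5, h6⟩, ?_⟩
        have h7 : IsConj (π' t) (W (UU gr' o) 0) := h5
        rw [ht, ← hW] at h7
        exact h7.symm
    rw [e1, Ez_phase hip hPc (hκ'.mono hPcP) (hκ2.mono hPcR)]
    have e2 : Ez gr' A B Pc κ2 = Ez gr' A B (Rq (π' t)) κ2 := by
      unfold Ez
      apply Finset.sum_congr _ (fun _ _ => rfl)
      ext o
      simp only [Finset.mem_filter, Finset.mem_univ, true_and]
      constructor
      · rintro ⟨h5, h6⟩
        exact ⟨hPcR _ h5, h6⟩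
      · rintro ⟨h5, h6⟩
        refine ⟨?_, h6⟩
        obtain ⟨k, hk1, hk2, hk3⟩ := h5
        rw [hW] at hk3
        show IsConj (π' t) (W (UU gr' o) 0)
        rw [hW]
        by_cases hw1 : W (UU gr o) 0 = 1
        · exfalso
          rw [hw1, map_one] at hk3
          have h7 := isConj_one_left.1 hk3
          have h8 := orderOf_dvd_of_pow_eq_one h7
          have h9 := Nat.Coprime.eq_one_of_dvd hk1.symm h8
          rw [h9] at h3
          norm_num at h3
        · exact hsep t htT _ (Finset.mem_erase.2 ⟨hw1, Finset.mem_image.2 ⟨o, mem_univ _, rfl⟩⟩)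
            k hk1 hk2 hk3
    rw [e2, ← Ez_eq, EE_tot, Ez_eq]
    obtain ⟨X, hX1, hX2⟩ := exists_units (ip_tot hip)
    rw [← hX1, ← hX2]
    exact Ez_q hp h3 hR X hm hκ2
  rw [← Ez_eq] at hz
  have h4 := (ZMod.intCast_zmod_eq_zero_iff_dvd _ _).1 hz
  rw [show (p : ℤ) ^ (i + 1) = ((m : ℕ) : ℤ) by rw [hm]; push_cast; rfl]
  exact h4

end main

end Pool.Agent.H414.W1
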