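import Pool.Agent.H414.W1.Sep

/-!
# Separation for groups which are residually integral unitriangular
-/

set_option autoImplicit false
set_option linter.unusedSectionVars false

namespace Pool.Agent.H414.W1

open Finset
open scoped Classical

section st

variable {n : ℕ} {R : Type*} [CommRing R]

/-- the first possibly non-zero superdiagonal is the `j`-th one -/
def St (j : ℕ) (N : Matrix (Fin n) (Fin n) R) : Prop :=
  ∀ a b : Fin n, (b : ℕ) < a + j → N a b = 0

lemma St.mul {i j : ℕ} {N N' : Matrix (Fin n) (Fin n) R} (h : St i N) (h' : St j N') :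
    St (i + j) (N * N') := by
  intro a b hab
  rw [Matrix.mul_apply]
  apply Finset.sum_eq_zero
  intro c _
  by_cases hc : (c : ℕ) < a + i
  · rw [h a c hc, zero_mul]
  · rw [h' c b (by omega), mul_zero]

lemma St.mono {i j : ℕ} (hij : i ≤ j) {N : Matrix (Fin n) (Fin n) R} (h : St j N) : St i N :=
  fun a b hab => h a b (by omega)

lemma St.add {j : ℕ} {N N' : Matrix (Fin n) (Fin n) R} (h : St j N) (h' : St j N') :
    St j (N + N') := fun a b hab => by
  rw [Matrix.add_apply, h a b hab, h' a b hab, add_zero]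

lemma St.nsmul {j : ℕ} {N : Matrix (Fin n) (Fin n) R} (h : St j N) (k : ℕ) :
    St j (k • N) := fun a b hab => by
  rw [Matrix.smul_apply, h a b hab, smul_zero]

/-- left multiplication by a unitriangular matrix -/
lemma St.left {j : ℕ} {B N : Matrix (Fin n) (Fin n) R} (hB : St 1 (B - 1)) (h : St j N) :
    St j (B * N) ∧ ∀ a b : Fin n, (b : ℕ) = a + j → (B * N) a b = N a b := by
  have h1 : B * N = N + (B - 1) * N := by
    rw [sub_mul, one_mul, add_sub_cancel]
  have h2 := hB.mul h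
  rw [h1]
  refine ⟨h.add (h2.mono (by omega)), ?_⟩
  intro a b hab
  rw [Matrix.add_apply, h2 a b (by omega), add_zero]

/-- right multiplication by a unitriangular matrix -/
lemma St.right {j : ℕ} {B N : Matrix (Fin n) (Fin n) R} (hB : St 1 (B - 1)) (h : St j N) :
    St j (N * B) ∧ ∀ a b : Fin n, (b : ℕ) = a + j → (N * B) a b = N a b := by
  have h1 : N * B = N + N * (B - 1) := by
    rw [mul_sub, mul_one, add_sub_cancel]
  have h2 := h.mul hB
  rw [h1]
  refine ⟨h.add (h2.mono (by omega)), ?_⟩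
  intro a b hab
  rw [Matrix.add_apply, h2 a b (by omega), add_zero]

/-- powers -/
lemma St.pow {j : ℕ} (hj : 1 ≤ j) {N : Matrix (Fin n) (Fin n) R} (h : St j N) (k : ℕ) :
    ∃ X : Matrix (Fin n) (Fin n) R, St (j + 1) X ∧ (1 + N) ^ k = 1 + k • N + X := by
  induction k with
  | zero => exact ⟨0, fun a b _ => rfl, by simp⟩
  | succ k ih =>
    obtain ⟨X, hX, h1⟩ := ih
    refine ⟨k • (N * N) + X + X * N, ?_, ?_⟩
    · exact ((((h.mul h).nsmul k).mono (by omega)).add hX).add ((hX.mul h).mono (by omega))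
    · rw [pow_succ, h1, succ_nsmul]
      simp only [add_mul, mul_add, one_mul, mul_one, smul_mul_assoc]
      abel

/-- the entries of the conjugates of powers -/
lemma St.conj {j : ℕ} (hj : 1 ≤ j) {N B B' : Matrix (Fin n) (Fin n) R} (h : St j N)
    (hB : St 1 (B - 1)) (hB' : St 1 (B' - 1)) (hBB : B * B' = 1) (k : ℕ) (a b : Fin n)
    (hab : (b : ℕ) = a + j) : (B * (1 + N) ^ k * B') a b = (k : R) * N a b := by
  obtain ⟨X, hX, h1⟩ := h.pow hj k
  have h2 : St j (k • N + X) := (h.nsmul k).add (hX.mono (by omega))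
  have h3 := St.left hB h2
  have h4 := St.right hB' h3.1
  have h5 : B * (1 + N) ^ k * B' = 1 + B * (k • N + X) * B' := by
    rw [h1, add_assoc, mul_add, add_mul, mul_one, hBB]
  rw [h5, Matrix.add_apply, h4.2 a b hab, h3.2 a b hab, Matrix.add_apply, Matrix.smul_apply,
    hX a b (by omega), add_zero, nsmul_eq_mul, Matrix.one_apply_ne, zero_add]
  intro hc
  rw [hc] at hab
  omega

end st

section nt

lemma nt {E F : ℕ} {lam lam' : ℤ} {k s : ℕ} (hlam : lam ≠ 0) (hlF : lam ∣ F)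
    (hl'F : lam' ≠ 0 → lam' ∣ F) (hs : ((E * F * F : ℕ) : ℤ) ∣ s * lam) (hks : k.Coprime s)
    (hk : ((E * F * F : ℕ) : ℤ) ∣ k * lam - lam') :
    E ∣ s ∧ ((E : ℤ) ∣ k - 1 ∨ (E : ℤ) ∣ k + 1) := by
  obtain ⟨f, hf⟩ := hlF
  have h1 : ((E * F : ℕ) : ℤ) ∣ s := by
    have h2 : lam * ((E * F : ℕ) : ℤ) ∣ lam * s := by
      rw [mul_comm lam (s : ℤ)]
      refine dvd_trans ?_ hs
      refine ⟨f, ?_⟩
      push_cast
      rw [hf]
      ring
    exact (mul_dvd_mul_iff_left hlam).1 h2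
  have h1' : E * F ∣ s := by exact_mod_cast h1
  have hE : E ∣ s := dvd_trans (dvd_mul_right _ _) h1'
  refine ⟨hE, ?_⟩
  have h3 : lam ∣ lam' := by
    have h4 : lam ∣ k * lam - lam' := by
      refine dvd_trans ?_ hk
      refine ⟨f * ((E * F : ℕ) : ℤ), ?_⟩
      push_cast
      rw [hf]
      ring
    exact (dvd_sub_right (dvd_mul_left _ _)).1 h4
  obtain ⟨μ, hμ⟩ := h3
  have h4 : ((E * F : ℕ) : ℤ) ∣ k - μ := by
    have h5 : lam * ((E * F : ℕ) : ℤ) ∣ lam * (k - μ) := by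
      have h6 : lam * (k - μ) = k * lam - lam' := by rw [hμ]; ring
      rw [h6]
      refine dvd_trans ?_ hk
      refine ⟨f, ?_⟩
      push_cast
      rw [hf]
      ring
    exact (mul_dvd_mul_iff_left hlam).1 h5
  have h5 : (E : ℤ) ∣ k - μ := dvd_trans ⟨F, by push_cast; ring⟩ h4
  by_cases hμ0 : μ = 0
  · rw [hμ0, sub_zero] at h4
    have h6 : E * F ∣ k := by exact_mod_cast h4
    have h7 : E * F ∣ 1 := by
      rw [← hks]
      exact Nat.dvd_gcd h6 h1'
    have h8 : E = 1 := Nat.eq_one_of_mul_eq_one_right (Nat.dvd_one.1 h7)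
    left
    rw [h8]
    exact one_dvd _
  · have h6 : μ ∣ F := dvd_trans ⟨lam, by rw [hμ]; ring⟩ (hl'F (by
      rw [hμ]
      exact mul_ne_zero hlam hμ0))
    have h7 : μ ∣ k := by
      have h8 : μ ∣ k - μ := dvd_trans h6 (dvd_trans ⟨E, by push_cast; ring⟩ h4)
      have h9 := dvd_add h8 (dvd_refl μ)
      rwa [sub_add_cancel] at h9
    have h8 : (μ.natAbs) ∣ 1 := by
      rw [← hks]
      apply Nat.dvd_gcd
      · exact Int.natCast_dvd_natCast.1 (Int.natAbs_dvd.2 h7)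
      · refine dvd_trans ?_ (dvd_trans (dvd_mul_left F E) h1')
        exact Int.natCast_dvd_natCast.1 (Int.natAbs_dvd.2 h6)
    rcases Int.natAbs_eq_iff.1 (Nat.dvd_one.1 h8) with h9 | h9
    · left
      rw [h9] at h5
      simpa using h5
    · right
      rw [h9] at h5
      simpa using h5

end nt

/-- the group is residually integral unitriangular -/
def Ru (H : Type*) [Group H] : Prop :=
  ∀ h : H, h ≠ 1 → ∃ (n : ℕ) (ψ : H →* Matrix (Fin n) (Fin n) ℤ),
    (∀ g, St 1 (ψ g - 1)) ∧ ψ h ≠ 1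

/-- powers in finite quotients which are conjugate to given elements -/
def Sg (H : Type*) [Group H] : Prop :=
  ∀ (T : Finset H) (t : H), t ≠ 1 → ∀ E : ℕ, 0 < E →
    ∃ (N : Subgroup H) (_ : N.Normal), N.FiniteIndex ∧ E ∣ orderOf (t : H ⧸ N) ∧
      ∀ t' ∈ T, ∀ k : ℕ, k.Coprime (orderOf (t : H ⧸ N)) →
        IsConj ((t : H ⧸ N) ^ k) (t' : H ⧸ N) → (E : ℤ) ∣ k - 1 ∨ (E : ℤ) ∣ k + 1

section ru

variable {H : Type*} [Group H]

lemma exists_lead {n : ℕ} {N : Matrix (Fin n) (Fin n) ℤ} (h1 : St 1 N) (h : N ≠ 0) :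
    ∃ j : ℕ, 1 ≤ j ∧ St j N ∧ ∃ a b : Fin n, (b : ℕ) = a + j ∧ N a b ≠ 0 := by
  have hex : ∃ j : ℕ, ¬ St (j + 1) N := by
    refine ⟨n, ?_⟩
    intro hc
    apply h
    ext a b
    exact hc a b (by omega)
  set j := Nat.find hex with hj
  have hspec := Nat.find_spec hex
  rw [← hj] at hspec
  have hj1 : 1 ≤ j := by
    by_contra hc
    have h0 : j = 0 := by omega
    rw [h0] at hspec
    exact hspec h1
  have hstj : St j N := by
    have h2 := Nat.find_min hex (m := j - 1) (by omega)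
    rw [Nat.sub_add_cancel hj1, not_not] at h2
    exact h2
  refine ⟨j, hj1, hstj, ?_⟩
  unfold St at hspec
  push Not at hspec
  obtain ⟨a, b, hab, hne⟩ := hspec
  refine ⟨a, b, ?_, hne⟩
  by_contra hc
  exact hne (hstj a b (by omega))

theorem Ru.sg (hH : Ru H) : Sg H := by
  intro T t ht E hE
  obtain ⟨n, ψ, hψ, hψt⟩ := hH t ht
  obtain ⟨j, hj, hst, a, b, hab, hne⟩ := exists_lead (hψ t) (sub_ne_zero.2 hψt)
  have hane : a ≠ b := by
    intro hc
    rw [hc] at hab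
    omega
  have hentry : ∀ x : H, (ψ x - 1) a b = ψ x a b := by
    intro x
    rw [Matrix.sub_apply, Matrix.one_apply_ne hane, sub_zero]
  rw [hentry] at hne
  set lam := ψ t a b with hlam
  set K : ℕ := lam.natAbs + ∑ t' ∈ T, (ψ t' a b).natAbs with hK
  set F := K.factorial with hF
  set M := E * F * F with hM
  have hF0 : 0 < F := Nat.factorial_pos K
  have hM0 : 0 < M := Nat.mul_pos (Nat.mul_pos hE hF0) hF0
  have hMne : NeZero M := ⟨hM0.ne'⟩
  let red : Matrix (Fin n) (Fin n) ℤ →+* Matrix (Fin n) (Fin n) (ZMod M) :=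
    (Int.castRingHom (ZMod M)).mapMatrix
  let ψM : H →* Matrix (Fin n) (Fin n) (ZMod M) := red.toMonoidHom.comp ψ
  have hψM : ∀ x a b, ψM x a b = ((ψ x a b : ℤ) : ZMod M) := fun x a b => rfl
  have hfinM : Finite (Matrix (Fin n) (Fin n) (ZMod M)) :=
    inferInstanceAs (Finite (Fin n → Fin n → ZMod M))
  let N : Subgroup H := ψM.toHomUnits.ker
  have hNfin : N.FiniteIndex := inferInstance
  have hNnorm : N.Normal := inferInstance
  have hmem : ∀ x, x ∈ N → ψM x = 1 := by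
    intro x hx
    have h1 := congrArg Units.val (MonoidHom.mem_ker.1 hx)
    exact h1
  have hstM : ∀ i x, St i (ψ x - 1) → St i (ψM x - 1) := by
    intro i x hx a b hab
    have h1 := hx a b hab
    have h2 : (ψM x - 1) a b = (((ψ x - 1) a b : ℤ) : ZMod M) := by
      have h3 : ψM x - 1 = red (ψ x - 1) := by
        rw [map_sub, map_one]
        rfl
      rw [h3]
      rfl
    rw [h2, h1, Int.cast_zero]
  -- the main computation
  have key : ∀ (x y : H) (k : ℕ), x * t ^ k * x⁻¹ * y⁻¹ ∈ N → ((M : ℕ) : ℤ) ∣ k * lam - ψ y a b := by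
    intro x y k hxy
    have h1 : ψM (x * t ^ k * x⁻¹) = ψM y := by
      have h2 := hmem _ hxy
      rw [map_mul] at h2
      have h3 : ψM y⁻¹ * ψM y = 1 := by rw [← map_mul, inv_mul_cancel, map_one]
      calc ψM (x * t ^ k * x⁻¹) = ψM (x * t ^ k * x⁻¹) * (ψM y⁻¹ * ψM y) := by rw [h3, mul_one]
        _ = ψM y := by rw [← mul_assoc, h2, one_mul]
    have h4 : ψM (x * t ^ k * x⁻¹) a b = (k : ZMod M) * (ψM t - 1) a b := by
      rw [map_mul, map_mul, map_pow]
      have h5 := St.conj hj (hstM j t hst) (B := ψM x) (B' := ψM x⁻¹) (hstM 1 x (hψ x))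
        (hstM 1 _ (hψ x⁻¹)) (by rw [← map_mul, mul_inv_cancel, map_one]) k a b hab
      rwa [add_sub_cancel] at h5
    rw [h1, Matrix.sub_apply, Matrix.one_apply_ne hane, sub_zero, hψM, hψM] at h4
    rw [← ZMod.intCast_zmod_eq_zero_iff_dvd, Int.cast_sub, Int.cast_mul, Int.cast_natCast, h4,
      sub_self]
  have hlF : lam ∣ (F : ℤ) := by
    rw [← Int.natAbs_dvd]
    exact Int.natCast_dvd_natCast.2 (Nat.dvd_factorial (Int.natAbs_pos.2 hne) (by omega))
  have hs : ((M : ℕ) : ℤ) ∣ (orderOf (t : H ⧸ N) : ℕ) * lam := by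
    have h1 := key 1 1 (orderOf (t : H ⧸ N)) (by
      rw [one_mul, inv_one, mul_one, mul_one, ← QuotientGroup.eq_one_iff, QuotientGroup.mk_pow]
      exact pow_orderOf_eq_one _)
    rw [map_one, Matrix.one_apply_ne hane, sub_zero] at h1
    exact h1
  refine ⟨N, hNnorm, hNfin, ?_, ?_⟩
  · have h1 := nt (E := E) (F := F) (k := 1) (lam' := lam) hne hlF (fun _ => hlF) hs
      (Nat.coprime_one_left _) (by
        rw [Nat.cast_one, one_mul, sub_self]
        exact dvd_zero _)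
    exact h1.1
  · intro t' ht' k hk hc
    obtain ⟨c, hc⟩ := isConj_iff.1 hc
    obtain ⟨x, rfl⟩ := QuotientGroup.mk_surjective c
    have h1 := key x t' k (by
      rw [← QuotientGroup.eq_one_iff]
      simp only [QuotientGroup.mk_mul, QuotientGroup.mk_pow, QuotientGroup.mk_inv]
      rw [hc, mul_inv_cancel])
    refine (nt hne hlF ?_ hs hk h1).2
    intro h0
    rw [← Int.natAbs_dvd]
    refine Int.natCast_dvd_natCast.2 (Nat.dvd_factorial (Int.natAbs_pos.2 h0) ?_)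
    have h2 := Finset.single_le_sum (f := fun t' => (ψ t' a b).natAbs)
      (fun _ _ => Nat.zero_le _) ht'
    have h3 : (ψ t' a b).natAbs ≤ ∑ t' ∈ T, (ψ t' a b).natAbs := h2
    omega

end ru

section sep

variable {H : Type*} [Group H]

lemma isConj_quot_mono {N₁ N₂ : Subgroup H} [N₁.Normal] [N₂.Normal] (h : N₁ ≤ N₂) {x y : H}
    (hc : IsConj (x : H ⧸ N₁) (y : H ⧸ N₁)) : IsConj (x : H ⧸ N₂) (y : H ⧸ N₂) := by
  let f : H ⧸ N₁ →* H ⧸ N₂ := QuotientGroup.map N₁ N₂ (MonoidHom.id H) h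
  exact f.map_isConj hc

lemma orderOf_quot_mono {N₁ N₂ : Subgroup H} [N₁.Normal] [N₂.Normal] (h : N₁ ≤ N₂) (x : H) :
    orderOf (x : H ⧸ N₂) ∣ orderOf (x : H ⧸ N₁) := by
  let f : H ⧸ N₁ →* H ⧸ N₂ := QuotientGroup.map N₁ N₂ (MonoidHom.id H) h
  exact orderOf_map_dvd f (x : H ⧸ N₁)

theorem Sg.sep (hH : Sg H) : Sep H := by
  intro T hT N hN hNf
  -- conjugacy of the given elements in finite quotients
  have hpair : ∀ y : T × T, ∃ (L : Subgroup H) (_ : L.Normal), L.FiniteIndex ∧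
      (IsConj ((y.1 : H) : H ⧸ L) ((y.2 : H) : H ⧸ L) →
        ∀ (L' : Subgroup H) (_ : L'.Normal), L'.FiniteIndex →
          IsConj ((y.1 : H) : H ⧸ L') ((y.2 : H) : H ⧸ L')) := by
    intro y
    by_cases hy : ∃ (L : Subgroup H) (_ : L.Normal), L.FiniteIndex ∧
        ¬ IsConj ((y.1 : H) : H ⧸ L) ((y.2 : H) : H ⧸ L)
    · obtain ⟨L, hL, hLf, hc⟩ := hy
      exact ⟨L, hL, hLf, fun h => absurd h hc⟩
    · push Not at hy
      exact ⟨⊤, inferInstance, inferInstance, fun _ => hy⟩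
  choose L hLn hLf hL using hpair
  set N₀ : Subgroup H := N ⊓ ⨅ y : T × T, L y with hN₀
  have hN₀n : N₀.Normal := by
    have h1 : (⨅ y : T × T, L y).Normal := Subgroup.normal_iInf_normal hLn
    exact Subgroup.normal_inf_normal _ _
  have hN₀f : N₀.FiniteIndex := by
    have h1 : (⨅ y : T × T, L y).FiniteIndex := Subgroup.finiteIndex_iInf hLf
    infer_instance
  have hcard : 0 < Nat.card (H ⧸ N₀) := Nat.card_pos
  have hN₀c : ∀ t ∈ T, ∀ t' ∈ T, IsConj (t : H ⧸ N₀) (t' : H ⧸ N₀) →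
      ∀ (L' : Subgroup H) (_ : L'.Normal), L'.FiniteIndex →
        IsConj (t : H ⧸ L') (t' : H ⧸ L') := by
    intro t ht t' ht' hc
    have h1 : N₀ ≤ L (⟨t, ht⟩, ⟨t', ht'⟩) := inf_le_right.trans (iInf_le _ _)
    have : (L (⟨t, ht⟩, ⟨t', ht'⟩)).Normal := hLn _
    exact hL (⟨t, ht⟩, ⟨t', ht'⟩) (isConj_quot_mono h1 hc)
  -- the separating subgroups
  set E := 3 * Nat.card (H ⧸ N₀) with hE
  have hsg : ∀ t : T, ∃ (K : Subgroup H) (_ : K.Normal), K.FiniteIndex ∧
      E ∣ orderOf ((t : H) : H ⧸ K) ∧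
      ∀ t' ∈ T, ∀ k : ℕ, k.Coprime (orderOf ((t : H) : H ⧸ K)) →
        IsConj (((t : H) : H ⧸ K) ^ k) (t' : H ⧸ K) → (E : ℤ) ∣ k - 1 ∨ (E : ℤ) ∣ k + 1 :=
    fun t => hH T t (hT t t.2) E (by omega)
  choose K hKn hKf hKE hK using hsg
  set N' : Subgroup H := N₀ ⊓ ⨅ t : T, K t with hN'
  have hN'n : N'.Normal := by
    have h1 : (⨅ t : T, K t).Normal := Subgroup.normal_iInf_normal hKn
    exact Subgroup.normal_inf_normal _ _
  have hN'f : N'.FiniteIndex := by
    have h1 : (⨅ t : T, K t).FiniteIndex := Subgroup.finiteIndex_iInf hKf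
    infer_instance
  have hle : ∀ t : T, N' ≤ K t := fun t => inf_le_right.trans (iInf_le _ _)
  refine ⟨N', hN'n, hN'f, inf_le_left.trans inf_le_left, ?_, ?_⟩
  · intro t ht
    have : (K ⟨t, ht⟩).Normal := hKn _
    exact ((Dvd.intro _ rfl : 3 ∣ E).trans (hKE ⟨t, ht⟩)).trans
      (orderOf_quot_mono (hle ⟨t, ht⟩) t)
  · intro t ht t' ht' k hk hk3 hc
    have hKi : (K ⟨t, ht⟩).Normal := hKn _
    have h1 : k.Coprime (orderOf (t : H ⧸ K ⟨t, ht⟩)) :=
      Nat.Coprime.coprime_dvd_right (orderOf_quot_mono (hle ⟨t, ht⟩) t) hk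
    have hc' : IsConj ((t ^ k : H) : H ⧸ N') (t' : H ⧸ N') := hc
    have h2 := hK ⟨t, ht⟩ t' ht' k h1 (isConj_quot_mono (hle ⟨t, ht⟩) hc')
    have h3 : (E : ℤ) ∣ k - 1 := by
      rcases h2 with h2 | h2
      · exact h2
      · exfalso
        have h3 : (3 : ℤ) ∣ E := ⟨Nat.card (H ⧸ N₀), by rw [hE]; push_cast; ring⟩
        have h4 := dvd_trans h3 h2
        omega
    have h4 : ((t ^ k : H) : H ⧸ N₀) = (t : H ⧸ N₀) := by
      rw [QuotientGroup.mk_pow]
      have h5 : (t : H ⧸ N₀) ^ k = (t : H ⧸ N₀) ^ 1 := by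
        rw [pow_eq_pow_iff_modEq]
        have h6 : 1 ≡ k [MOD E] := (Nat.modEq_iff_dvd).2 (by exact_mod_cast h3)
        exact (h6.of_dvd ((orderOf_dvd_natCard (t : H ⧸ N₀)).trans ⟨3, by rw [hE]; ring⟩)).symm
      rw [h5, pow_one]
    have h5 : IsConj (t : H ⧸ N₀) (t' : H ⧸ N₀) := by
      rw [← h4]
      exact isConj_quot_mono inf_le_left hc'
    exact hN₀c t ht t' ht' h5 N' hN'n hN'f

theorem Ru.sep (hH : Ru H) : Sep H := hH.sg.sep

lemma Ru.subgroup (hH : Ru H) (K : Subgroup H) : Ru K := by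
  intro h hne
  obtain ⟨n, ψ, h1, h2⟩ := hH h (fun hc => hne (Subtype.ext hc))
  exact ⟨n, ψ.comp K.subtype, fun g => h1 g, h2⟩

end sep

end Pool.Agent.H414.W1
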