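import Pool.Agent.H414.W1.Roots
import Pool.Agent.H414.W1.Res3
import Pool.Graph.R_seed8.H23R2.Root
import Pool.Graph.R_seed8.Y72.Dt.Tor
import Pool.Graph.R_seed8.Y72.Dt.SgMain

/-!
# The Dennis trace modulo diagonal values, and all representations
-/

set_option autoImplicit false
set_option linter.unusedSectionVars false

namespace Pool.Agent.H414.W1

section pd

open Finset H219.Wh Pool.Agent.Y72.Log Pool.Agent.Y72.Dt
open Pool.Agent.H23R2 (InvPair IsCoc DsumZ cf supp invPair_units rootF rootF_pos rootF_neg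
  rootF_coc rootF_succ_pow rootF_zero not_root_mono)
open scoped Classical

variable {Γ : Type*} [Group Γ] {n : ℕ}

/-- the part supported off the identity -/
noncomputable def off1 {M : Type*} [AddCommGroup M] (F : Γ → Γ → M) (w x : Γ) : M := if w = 1 then 0 else F w x

lemma off1_coc {M : Type*} [AddCommGroup M] {F : Γ → Γ → M} (hF : IsCoc F) : IsCoc (off1 F) := by
  intro w x y
  by_cases hw : w = 1
  · subst hw
    simp [off1]
  · have h1 : x⁻¹ * w * x ≠ 1 := by
      intro hc
      apply hw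
      have h2 : w = x * (x⁻¹ * w * x) * x⁻¹ := by group
      rw [h2, hc]
      simp
    simp only [off1, if_neg hw, if_neg h1]
    exact hF w x y

/-- **cocycles with vanishing diagonal** -/
theorem PD_diag (A : (Matrix (Fin n) (Fin n) (MonoidAlgebra ℤ Γ))ˣ) {p : ℕ} (hp : p.Prime)
    (hinj : ∀ x y : Γ, x ^ p = y ^ p → x = y)
    (hdiv : ∀ g : Γ, g ≠ 1 → ∃ k : ℕ, ∀ x : Γ, x ^ (p ^ k) ≠ g) {N : ℕ}
    {M : Type} [AddCommGroup M] (hM : ∀ x : M, (p ^ N) • x = 0) {F : Γ → Γ → M} (hF : IsCoc F)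
    (hd : ∀ g, F g g = 0) : PD A F = F 1 (gamA A) := by
  have hpf : Fact p.Prime := ⟨hp⟩
  -- the decomposition
  have h1 : PD A F = PD A (clF F (ConjClasses.mk 1)) + PD A (off1 F) := by
    unfold PD DsumZ
    rw [← Finset.sum_add_distrib]
    apply Finset.sum_congr rfl
    intro y _
    rw [← smul_add]
    congr 1
    unfold clF off1
    by_cases hy : (y.2.2.1 : Γ) * y.2.2.2 = 1
    · rw [if_pos (by rw [hy]), if_pos hy, add_zero]
    · rw [if_neg, if_neg hy, zero_add]
      intro hc
      rw [ConjClasses.mk_eq_mk_iff_isConj] at hc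
      exact hy (isConj_one_left.1 hc)
  rw [h1, PD_one A hF]
  have hF' := off1_coc hF
  have hd' : ∀ g, off1 F g g = 0 := by
    intro g
    unfold off1
    rw [hd, ite_self]
  set F' := off1 F with hF'def
  obtain ⟨Y, W, hYW⟩ := relA A hp N
  have hroot : ∀ k : ℕ, PD A (rootF p F' k) = PD A F' := by
    intro k
    induction k with
    | zero =>
      congr 1
      funext w x
      exact rootF_zero F' hinj w x
    | succ k ih =>
      have h2 := hYW M (by
        intro x
        rw [pow_succ, mul_comm, mul_smul, hM, smul_zero]) _ (rootF_coc hinj hF' (k + 1))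
      have h3 : (fun w x => rootF p F' (k + 1) (w ^ p) x) = rootF p F' k := by
        funext w x
        exact rootF_succ_pow hinj F' k w x
      rw [h3, ih] at h2
      rw [h2]
      rw [Finset.sum_eq_zero, add_zero]
      intro w _
      have h4 : rootF p F' (k + 1) w w = 0 := by
        by_cases h : ∃ z : Γ, z ^ (p ^ (k + 1)) = w
        · obtain ⟨z, hz⟩ := h
          rw [rootF_pos hinj F' (k + 1) z w _ hz, ← hz, hF'.pow, hd', smul_zero]
        · exact rootF_neg F' (k + 1) _ _ h
      rw [h4, smul_zero]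
  -- the supports
  have hk : ∃ K : ℕ, ∀ y : Pool.Agent.H23R2.Y (Fin n) (supp A.val ∪ supp (A⁻¹).val),
      ((y.2.2.1 : Γ) * (y.2.2.2 : Γ)) ≠ 1 →
      ∀ x : Γ, x ^ (p ^ K) ≠ (y.2.2.1 : Γ) * (y.2.2.2 : Γ) := by
    have h2 : ∀ y : Pool.Agent.H23R2.Y (Fin n) (supp A.val ∪ supp (A⁻¹).val), ∃ k : ℕ,
        ((y.2.2.1 : Γ) * (y.2.2.2 : Γ)) ≠ 1 →
        ∀ x : Γ, x ^ (p ^ k) ≠ (y.2.2.1 : Γ) * (y.2.2.2 : Γ) := by
      intro y
      by_cases hy : ((y.2.2.1 : Γ) * (y.2.2.2 : Γ)) = 1
      · exact ⟨0, fun hh => absurd hy hh⟩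
      · obtain ⟨k, hk⟩ := hdiv _ hy
        exact ⟨k, fun _ => hk⟩
    choose kf hkf using h2
    refine ⟨Finset.univ.sup kf, ?_⟩
    intro y hy
    exact not_root_mono _ (kf y) _ (Finset.le_sup (Finset.mem_univ y)) (hkf y hy)
  obtain ⟨K, hK⟩ := hk
  rw [← hroot K]
  have h5 : PD A (rootF p F' K) = 0 := by
    unfold PD DsumZ
    apply Finset.sum_eq_zero
    intro y _
    by_cases hy : ((y.2.2.1 : Γ) * (y.2.2.2 : Γ)) = 1
    · rw [rootF_pos hinj F' K 1 _ _ (by rw [one_pow, hy])]
      have h6 : F' 1 (y.2.2.1 : Γ) = 0 := if_pos rfl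
      rw [h6, smul_zero]
    · rw [rootF_neg F' K _ _ (by rintro ⟨z, hz⟩; exact hK y hy z hz), smul_zero]
  rw [h5, add_zero]

/-- **the Dennis trace modulo diagonal values** -/
theorem PD_mod (A : (Matrix (Fin n) (Fin n) (MonoidAlgebra ℤ Γ))ˣ) {p : ℕ} (hp : p.Prime)
    (hinj : ∀ x y : Γ, x ^ p = y ^ p → x = y)
    (hdiv : ∀ g : Γ, g ≠ 1 → ∃ k : ℕ, ∀ x : Γ, x ^ (p ^ k) ≠ g) {N : ℕ}
    {M : Type*} [AddCommGroup M] [Finite M] (hM : ∀ x : M, (p ^ N) • x = 0) {F : Γ → Γ → M}
    (hF : IsCoc F) : ∃ m ∈ AddSubgroup.closure (Set.range fun g => F g g),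
      PD A F = F 1 (gamA A) + 1 • m := by
  set C := AddSubgroup.closure (Set.range fun g => F g g) with hC
  have hfin : Finite (M ⧸ C) := inferInstance
  let e : (M ⧸ C) ≃+ Shrink.{0} (M ⧸ C) := Shrink.addEquiv.symm
  let q : M →+ Shrink.{0} (M ⧸ C) := e.toAddMonoidHom.comp (QuotientAddGroup.mk' C)
  have hq : ∀ x, q x = 0 → x ∈ C := by
    intro x hx
    have h1 : (QuotientAddGroup.mk' C) x = 0 := by
      apply e.injective
      rw [map_zero]
      exact hx
    exact (QuotientAddGroup.eq_zero_iff x).1 h1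
  have hqs : Function.Surjective q := e.surjective.comp (QuotientAddGroup.mk'_surjective C)
  have h1 := PD_diag A hp hinj hdiv (N := N) (M := Shrink.{0} (M ⧸ C)) (by
    intro x
    obtain ⟨y, rfl⟩ := hqs x
    rw [← map_nsmul, hM, map_zero]) (F := fun w x => q (F w x)) (by
    intro w x y
    show q _ = q _ + q _
    rw [← map_add, hF]) (by
    intro g
    have h2 : F g g ∈ C := AddSubgroup.subset_closure ⟨g, rfl⟩
    show e ((QuotientAddGroup.mk' C) (F g g)) = 0
    have h3 : (QuotientAddGroup.mk' C) (F g g) = 0 := (QuotientAddGroup.eq_zero_iff _).2 h2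
    rw [h3, map_zero])
  rw [← map_PD, ← sub_eq_zero, ← map_sub] at h1
  refine ⟨_, hq _ h1, ?_⟩
  rw [one_smul, add_sub_cancel]

end pd

section tors

open Finset H219.Wh Pool.Agent.Y72.Log Pool.Agent.Y72.Dt
open Pool.Agent.H23R2 (InvPair IsCoc DsumZ cf supp invPair_units)
open scoped Classical

variable {Γ : Type*} [Group Γ] {n d : ℕ}

/-- **Determinants of representations over integral group rings of finite commutative groups** -/
theorem tors (A : (Matrix (Fin n) (Fin n) (MonoidAlgebra ℤ Γ))ˣ) (hn : Ru Γ)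
    {T : Type*} [CommGroup T] [Finite T]
    (ρ : Γ →* Matrix (Fin d) (Fin d) (MonoidAlgebra ℤ T)) (hρ : (Set.range ρ).Finite) :
    (block ρ A.val).det * (ρ (gamA A)⁻¹).det = 1 ∨
      (block ρ A.val).det * (ρ (gamA A)⁻¹).det = -1 := by
  set u := (block ρ A.val).det * (ρ (gamA A)⁻¹).det with hudef
  -- the character values
  have h1 : ∀ ψ : AddChar (Additive T) ℂ, ‖chr ψ u‖ = 1 := by
    intro ψ
    have hr : (Set.range (((chr ψ).mapMatrix.toMonoidHom).comp ρ :
        Γ →* Matrix (Fin d) (Fin d) ℂ)).Finite := by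
      have : Set.range (((chr ψ).mapMatrix.toMonoidHom).comp ρ :
        Γ →* Matrix (Fin d) (Fin d) ℂ) = (chr ψ).mapMatrix '' Set.range ρ := by
        ext x
        simp only [Set.mem_range, Set.mem_image, exists_exists_eq_and]
        rfl
      rw [this]
      exact hρ.image _
    obtain ⟨N, hN, h2⟩ := det_ru hn A (((chr ψ).mapMatrix.toMonoidHom).comp ρ) hr
    obtain ⟨m, hm, h3⟩ := finite_order (((chr ψ).mapMatrix.toMonoidHom).comp ρ) hr (gamA A)⁻¹
    have h4 : ((((chr ψ).mapMatrix.toMonoidHom).comp ρ) (gamA A)⁻¹).det ^ m = 1 := by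
      rw [← Matrix.det_pow, h3, Matrix.det_one]
    have h5 : (chr ψ u) ^ (N * m) = 1 := by
      rw [hudef, ← det_map, mul_pow, pow_mul, mul_comm N m, pow_mul _ m N, h4, one_pow, mul_one]
      have h6 : (block (((chr ψ).mapMatrix.toMonoidHom).comp ρ) A.val).det ^ N = 1 := h2
      rw [h6, one_pow]
    exact Complex.norm_eq_one_of_pow_eq_one h5 (Nat.mul_pos hN hm).ne'
  obtain ⟨t, ht⟩ := triv_unit u h1
  -- the logarithmic derivative
  have h2 : t = 1 := by
    by_contra hne
    obtain ⟨p, N, hp, μ, hμ⟩ := exists_char t hne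
    have hpN : NeZero (p ^ N) := ⟨pow_ne_zero _ hp.ne_zero⟩
    have hfinR : Finite (MonoidAlgebra (ZMod (p ^ N)) T) :=
      Finite.of_injective (fun x : MonoidAlgebra (ZMod (p ^ N)) T => (x.coeff : T → ZMod (p ^ N)))
        (fun x y h => MonoidAlgebra.coeff_injective (DFunLike.coe_injective h))
    let π : MonoidAlgebra ℤ T →+* MonoidAlgebra (ZMod (p ^ N)) T :=
      MonoidAlgebra.mapRingHom T (Int.castRingHom (ZMod (p ^ N)))
    obtain ⟨y, hy⟩ := dlog_det (p := 1) (I := 0) A (γ := gamA A) (Λ := Unit)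
      (D := fun _ => DM μ) (by
        intro F hF
        exact PD_mod A hp (hn.inj hp.ne_zero) (hn.div hp) (N := N)
          (M := Unit → MonoidAlgebra (ZMod (p ^ N)) T) (by
            intro x
            funext z
            apply MonoidAlgebra.coeff_injective
            ext s
            have h6 : ((p ^ N) • x z).coeff s = (p ^ N) • (x z).coeff s := rfl
            show ((p ^ N) • x z).coeff s = 0
            rw [h6, nsmul_eq_mul, ZMod.natCast_self, zero_mul]) hF)
      ((π.mapMatrix.toMonoidHom).comp ρ)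
    have h3 := hy ()
    rw [det_map, ← hudef] at h3
    simp only [Nat.cast_one, one_mul] at h3
    apply hμ
    -- the unit
    obtain ⟨ε, hε, hπu⟩ : ∃ ε : ZMod (p ^ N), ε * ε = 1 ∧ π u = MonoidAlgebra.single t ε := by
      rcases ht with h | h
      · refine ⟨1, one_mul 1, ?_⟩
        rw [h]
        show MonoidAlgebra.mapRingHom T (Int.castRingHom (ZMod (p ^ N)))
          (MonoidAlgebra.single t 1) = _
        rw [MonoidAlgebra.mapRingHom_single, map_one]
      · refine ⟨-1, by ring, ?_⟩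
        rw [h]
        show MonoidAlgebra.mapRingHom T (Int.castRingHom (ZMod (p ^ N)))
          (MonoidAlgebra.single t (-1)) = _
        rw [MonoidAlgebra.mapRingHom_single, map_neg, map_one]
    have h4 : (μ t).toAdd * (π u).coeff t = (π u * DM μ y).coeff t := by
      have h40 := DM_coeff μ (π u) t
      rw [← h40]
      exact congrArg (fun z => MonoidAlgebra.coeff z t) h3
    have h5 : (π u * DM μ y).coeff t = 0 := by
      rw [hπu]
      have h6 := MonoidAlgebra.coeff_single_mul_apply (DM μ y) ε t t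
      rw [h6, inv_mul_cancel, DM_coeff, map_one]
      simp
    rw [h5, hπu, MonoidAlgebra.coeff_single, Finsupp.single_eq_same] at h4
    have h6 : (μ t).toAdd = 0 := by
      have h7 : (μ t).toAdd = (μ t).toAdd * ε * ε := by rw [mul_assoc, hε, mul_one]
      rw [h7, h4, zero_mul]
    exact toAdd_eq_zero.1 h6
  rw [h2] at ht
  rcases ht with h | h
  · left
    rw [h]
    rfl
  · right
    rw [h, MonoidAlgebra.single_neg]
    rfl

end tors

end Pool.Agent.H414.W1
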