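import Pool.Graph.R_seed8.Y72.Dt.Par
import Pool.Graph.R_seed8.Y72.Log.App

/-!
# Units of integral group rings of cyclic groups and the field `ℚ(√-3)`
-/

set_option autoImplicit false
set_option linter.unusedSectionVars false

namespace Pool.Agent.H414.W1

open Finset Pool.Agent.Y72.Dt Pool.Agent.Y72.Log
open scoped Classical

section sums

variable {C : Type*} [CommGroup C] [Fintype C]

/-- sums of characters over the elements of order dividing `d` -/
lemma sum_tors (ψ : AddChar (Additive C) ℂ) (d : ℕ) :
    ∃ z : ℤ, ∑ x : C with x ^ d = 1, ψ (Additive.ofMul x) = z := by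
  by_cases h : ∀ x : C, x ^ d = 1 → ψ (Additive.ofMul x) = 1
  · refine ⟨((univ.filter (fun x : C => x ^ d = 1)).card : ℤ), ?_⟩
    rw [Finset.sum_congr rfl (fun x hx => h x (by simpa using hx)), Finset.sum_const,
      nsmul_eq_mul, mul_one]
    push_cast
    rfl
  · push Not at h
    obtain ⟨y, hy, hψ⟩ := h
    refine ⟨0, ?_⟩
    have h1 : ∑ x : C with x ^ d = 1, ψ (Additive.ofMul x) =
        ψ (Additive.ofMul y) * ∑ x : C with x ^ d = 1, ψ (Additive.ofMul x) := by
      rw [Finset.mul_sum]
      symm
      refine Finset.sum_nbij' (fun x => y * x) (fun x => y⁻¹ * x) ?_ ?_ ?_ ?_ ?_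
      · intro x hx
        simp only [Finset.mem_filter, Finset.mem_univ, true_and] at hx ⊢
        rw [mul_pow, hy, hx, one_mul]
      · intro x hx
        simp only [Finset.mem_filter, Finset.mem_univ, true_and] at hx ⊢
        rw [mul_pow, inv_pow, hy, hx, inv_one, one_mul]
      · intro x _
        exact inv_mul_cancel_left _ _
      · intro x _
        exact mul_inv_cancel_left _ _
      · intro x _
        rw [ofMul_mul, AddChar.map_add_eq_mul]
    have h2 : (1 - ψ (Additive.ofMul y)) *
        ∑ x : C with x ^ d = 1, ψ (Additive.ofMul x) = 0 := by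
      rw [sub_mul, one_mul, ← h1, sub_self]
    rcases mul_eq_zero.1 h2 with h3 | h3
    · exact absurd (sub_eq_zero.1 h3).symm hψ
    · rw [h3, Int.cast_zero]

/-- sums of characters over the elements of order `d` -/
lemma sum_order (ψ : AddChar (Additive C) ℂ) (d : ℕ) :
    ∃ z : ℤ, ∑ x : C with orderOf x = d, ψ (Additive.ofMul x) = z := by
  induction d using Nat.strong_induction_on with
  | _ d ih =>
    by_cases hd : d = 0
    · refine ⟨0, ?_⟩
      rw [Finset.filter_false_of_mem, Finset.sum_empty, Int.cast_zero]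
      intro x _ hx
      exact (orderOf_pos x).ne' (hx.trans hd)
    · obtain ⟨z, hz⟩ := sum_tors ψ d
      choose f hf using ih
      have h1 : ∑ x : C with x ^ d = 1, ψ (Additive.ofMul x) =
          ∑ e ∈ d.divisors, ∑ x : C with orderOf x = e, ψ (Additive.ofMul x) := by
        rw [← Finset.sum_fiberwise_of_maps_to (s := univ.filter (fun x : C => x ^ d = 1))
          (t := d.divisors) (g := fun x => orderOf x)]
        · apply Finset.sum_congr rfl
          intro e he
          apply Finset.sum_congr _ (fun _ _ => rfl)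
          ext x
          simp only [Finset.mem_filter, Finset.mem_univ, true_and]
          constructor
          · exact fun h => h.2
          · intro h
            refine ⟨?_, h⟩
            rw [← orderOf_dvd_iff_pow_eq_one, h]
            exact Nat.dvd_of_mem_divisors he
        · intro x hx
          simp only [Finset.mem_filter, Finset.mem_univ, true_and] at hx
          rw [Nat.mem_divisors]
          exact ⟨orderOf_dvd_of_pow_eq_one hx, hd⟩
      rw [hz, ← Nat.cons_self_properDivisors hd, Finset.sum_cons] at h1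
      refine ⟨z - ∑ e ∈ d.properDivisors.attach,
        f e.1 (Nat.mem_properDivisors.1 e.2).2, ?_⟩
      push_cast
      rw [eq_sub_iff_add_eq, h1]
      congr 1
      rw [← Finset.sum_attach d.properDivisors]
      apply Finset.sum_congr rfl
      intro e _
      exact (hf e.1 _).symm

end sums

section powers

variable {C : Type*} [CommGroup C] [Fintype C]

/-- the ring endomorphism given by the `k`-th powers -/
noncomputable def sg (k : ℕ) : MonoidAlgebra ℤ C →+* MonoidAlgebra ℤ C := mp (powMonoidHom k)

lemma sg_single (k : ℕ) (x : C) (a : ℤ) :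
    sg k (MonoidAlgebra.single x a) = MonoidAlgebra.single (x ^ k) a := mp_single _ _ _

lemma sg_sg (k l : ℕ) (w : MonoidAlgebra ℤ C) : sg k (sg l w) = sg (k * l) w := by
  induction w using MonoidAlgebra.induction_linear with
  | zero => simp only [map_zero]
  | add x y hx hy => simp only [map_add, hx, hy]
  | single g a => rw [sg_single, sg_single, sg_single, ← pow_mul, mul_comm l k]

lemma sg_congr {k l : ℕ} (h : k ≡ l [MOD Fintype.card C]) (w : MonoidAlgebra ℤ C) :
    sg k w = sg l w := by
  induction w using MonoidAlgebra.induction_linear with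
  | zero => simp only [map_zero]
  | add x y hx hy => simp only [map_add, hx, hy]
  | single g a =>
    rw [sg_single, sg_single]
    congr 1
    rw [pow_eq_pow_iff_modEq]
    exact h.of_dvd (orderOf_dvd_card)

lemma mp_coeff_inj {C' : Type*} [Group C'] (φ : C →* C') (hφ : Function.Injective φ)
    (w : MonoidAlgebra ℤ C) (x : C) : (mp φ w).coeff (φ x) = w.coeff x := by
  rw [mp_coeff φ w univ (fun _ _ => mem_univ _), Finset.sum_eq_single x]
  · rw [if_pos rfl]
  · intro y _ hy
    rw [if_neg (fun h => hy (hφ h))]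
  · intro h
    exact absurd (mem_univ _) h

lemma pow_inj {k : ℕ} (hk : k.Coprime (Fintype.card C)) :
    Function.Injective (powMonoidHom k : C →* C) := by
  have hk' : (Nat.card C).Coprime k := by
    rw [Nat.card_eq_fintype_card]; exact hk.symm
  exact (powCoprime hk').injective

lemma sg_coeff {k : ℕ} (hk : k.Coprime (Fintype.card C)) (w : MonoidAlgebra ℤ C) (x : C) :
    (sg k w).coeff (x ^ k) = w.coeff x := mp_coeff_inj _ (pow_inj hk) w x

/-- the exponents -/
abbrev Un (C : Type*) [Fintype C] := (ZMod (Fintype.card C))ˣ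

instance : NeZero (Fintype.card C) := ⟨Fintype.card_ne_zero⟩

/-- the exponent as a number -/
def ev (u : Un C) : ℕ := (u : ZMod (Fintype.card C)).val

lemma ev_coprime (u : Un C) : (ev u).Coprime (Fintype.card C) := ZMod.val_coe_unit_coprime u

lemma ev_mul (u v : Un C) : ev (u * v) ≡ ev u * ev v [MOD Fintype.card C] := by
  unfold ev
  rw [Units.val_mul, ZMod.val_mul]
  exact Nat.mod_modEq _ _

/-- the automorphism -/
noncomputable def su (u : Un C) : MonoidAlgebra ℤ C →+* MonoidAlgebra ℤ C := sg (ev u)

lemma su_su (u v : Un C) (w : MonoidAlgebra ℤ C) : su u (su v w) = su (u * v) w := by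
  unfold su
  rw [sg_sg]
  exact sg_congr (ev_mul u v).symm w

lemma su_coeff (u : Un C) (w : MonoidAlgebra ℤ C) (x : C) :
    (su u w).coeff (x ^ ev u) = w.coeff x := sg_coeff (ev_coprime u) w x

lemma pow_ev_ev (u v : Un C) (x : C) : (x ^ ev u) ^ ev v = x ^ ev (u * v) := by
  rw [← pow_mul, pow_eq_pow_iff_modEq]
  exact (ev_mul u v).symm.of_dvd (orderOf_dvd_card)

lemma pow_ev_one (x : C) : x ^ ev (1 : Un C) = x := by
  have h : x ^ ev (1 : Un C) = x ^ 1 := by
    rw [pow_eq_pow_iff_modEq]
    have h1 : ev (1 : Un C) ≡ 1 [MOD Fintype.card C] := by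
      rw [← ZMod.natCast_eq_natCast_iff]
      unfold ev
      rw [ZMod.natCast_zmod_val]
      simp
    exact h1.of_dvd orderOf_dvd_card
  rw [h, pow_one]

lemma su_coeff' (u : Un C) (w : MonoidAlgebra ℤ C) (x : C) :
    (su u w).coeff x = w.coeff (x ^ ev u⁻¹) := by
  rw [← su_coeff u w (x ^ ev u⁻¹), pow_ev_ev, inv_mul_cancel, pow_ev_one]

/-- elements of the same order of a cyclic group -/
lemma mem_zpowers_of_order [IsCyclic C] {x y : C} (h : orderOf x = orderOf y) :
    y ∈ Subgroup.zpowers x := by
  have h1 := IsCyclic.card_powMonoidHom_ker (G := C) (orderOf x)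
  have h2 : Nat.card (Subgroup.zpowers x) = orderOf x := Nat.card_zpowers x
  have hd : orderOf x ∣ Nat.card C := orderOf_dvd_natCard x
  have h3 : Subgroup.zpowers x ≤ (powMonoidHom (orderOf x) : C →* C).ker := by
    rw [Subgroup.zpowers_le, MonoidHom.mem_ker]
    exact pow_orderOf_eq_one x
  have h4 : Nat.card (powMonoidHom (orderOf x) : C →* C).ker =
      Nat.card (Subgroup.zpowers x) := by
    rw [h1, h2]
    exact Nat.gcd_eq_right hd
  have h5 : Subgroup.zpowers x = (powMonoidHom (orderOf x) : C →* C).ker :=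
    Subgroup.eq_of_le_of_card_ge h3 h4.le
  rw [h5, MonoidHom.mem_ker]
  show y ^ orderOf x = 1
  rw [h]
  exact pow_orderOf_eq_one y

/-- lifting exponents -/
lemma exists_ev_modEq {n k : ℕ} (hn : n ∣ Fintype.card C) (hn0 : n ≠ 0) (hk : k.Coprime n) :
    ∃ u : Un C, ev u ≡ k [MOD n] := by
  have : NeZero n := ⟨hn0⟩
  obtain ⟨u, hu⟩ := ZMod.unitsMap_surjective hn (ZMod.unitOfCoprime k hk)
  refine ⟨u, ?_⟩
  rw [← ZMod.natCast_eq_natCast_iff]
  have h1 : ((ZMod.unitsMap hn u : (ZMod n)ˣ) : ZMod n) = (k : ZMod n) := by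
    rw [hu, ZMod.coe_unitOfCoprime]
  rw [← h1, ZMod.unitsMap_val]
  unfold ev
  exact ZMod.natCast_val _

lemma exists_ev [IsCyclic C] {x y : C} (h : orderOf x = orderOf y) : ∃ u : Un C, x ^ ev u = y := by
  obtain ⟨k, hk⟩ := (mem_powers_iff_mem_zpowers.2 (mem_zpowers_of_order h) :
    y ∈ Submonoid.powers x)
  have hk' : x ^ k = y := hk
  have h1 : k.Coprime (orderOf x) := by
    have h2 := orderOf_pow (n := k) x
    rw [hk', ← h] at h2
    have h3 : 0 < orderOf x := orderOf_pos x
    have h4 : (orderOf x).gcd k = 1 := by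
      have h5 := Nat.div_mul_cancel (Nat.gcd_dvd_left (orderOf x) k)
      rw [← h2] at h5
      have h6 : orderOf x * (orderOf x).gcd k = orderOf x * 1 := by rw [h5, mul_one]
      exact Nat.eq_of_mul_eq_mul_left h3 h6
    exact (Nat.coprime_comm.1 h4)
  obtain ⟨u, hu⟩ := exists_ev_modEq (C := C) (orderOf_dvd_card (x := x)) (orderOf_pos x).ne' h1
  refine ⟨u, ?_⟩
  rw [← hk', pow_eq_pow_iff_modEq]
  exact hu

end powers

end Pool.Agent.H414.W1
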