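import Pool.Agent.H414.W1.Unit

/-!
# Units of integral group rings of cyclic groups and the field `ℚ(√-3)`: the main congruence
-/

set_option autoImplicit false
set_option linter.unusedSectionVars false

namespace Pool.Agent.H414.W1

open Finset Pool.Agent.Y72.Dt Pool.Agent.Y72.Log
open scoped Classical

section main

variable {C : Type*} [CommGroup C] [Fintype C]

/-- invariant elements have integral character values -/
lemma inv_int [IsCyclic C] (Y : MonoidAlgebra ℤ C) (hY : ∀ u : Un C, su u Y = Y)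
    (ψ : AddChar (Additive C) ℂ) : ∃ z : ℤ, chr ψ Y = z := by
  have h1 : ∀ x y : C, orderOf x = orderOf y → Y.coeff x = Y.coeff y := by
    intro x y hxy
    obtain ⟨u, hu⟩ := exists_ev hxy
    have h2 := su_coeff u Y x
    rw [hY u, hu] at h2
    exact h2.symm
  choose f hf using sum_order ψ
  let c : ℕ → ℤ := fun d => if h : ∃ x : C, orderOf x = d then Y.coeff h.choose else 0
  have hc : ∀ x : C, Y.coeff x = c (orderOf x) := by
    intro x
    have h : ∃ y : C, orderOf y = orderOf x := ⟨x, rfl⟩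
    show Y.coeff x = if h : ∃ y : C, orderOf y = orderOf x then Y.coeff h.choose else 0
    rw [dif_pos h]
    exact h1 _ _ h.choose_spec.symm
  refine ⟨∑ d ∈ univ.image (fun x : C => orderOf x), c d * f d, ?_⟩
  rw [chr_apply, ← Finset.sum_fiberwise_of_maps_to (s := univ)
    (t := univ.image (fun x : C => orderOf x)) (g := fun x => orderOf x)
    (fun x _ => Finset.mem_image_of_mem _ (mem_univ x))]
  push_cast
  apply Finset.sum_congr rfl
  intro d _
  rw [← hf d, Finset.mul_sum]
  apply Finset.sum_congr rfl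
  intro x hx
  rw [hc x, (Finset.mem_filter.1 hx).2]

lemma ev_neg_one_add : ev (-1 : Un C) + 1 ≡ 0 [MOD Fintype.card C] := by
  rw [← ZMod.natCast_eq_natCast_iff]
  unfold ev
  push_cast
  rw [ZMod.natCast_zmod_val]
  simp

lemma pow_ev_neg_one (x : C) : x ^ ev (-1 : Un C) = x⁻¹ := by
  rw [eq_inv_iff_mul_eq_one, ← pow_succ, ← pow_zero x, pow_eq_pow_iff_modEq]
  exact (ev_neg_one_add (C := C)).of_dvd orderOf_dvd_card

lemma chr_neg (ψ : AddChar (Additive C) ℂ) (w : MonoidAlgebra ℤ C) :
    chr ψ (su (-1) w) = (starRingEnd ℂ) (chr ψ w) := by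
  rw [chr_apply, chr_apply, map_sum]
  rw [← Equiv.sum_comp (Equiv.inv C)]
  apply Finset.sum_congr rfl
  intro x _
  rw [map_mul, map_intCast, Equiv.inv_apply, ← AddChar.map_neg_eq_conj]
  have h := su_coeff (-1) w x
  rw [pow_ev_neg_one] at h
  rw [h]
  rfl

/-- the set of exponents -/
def NN (C : Type*) [Fintype C] : Set (Un C) := {u | ev u % 3 = 1}

lemma ev_mod (h3 : 3 ∣ Fintype.card C) (u : Un C) : ev u % 3 = 1 ∨ ev u % 3 = 2 := by
  have h1 := ev_coprime u
  have h2 : ¬ 3 ∣ ev u := by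
    intro h
    have h4 := Nat.dvd_gcd h h3
    rw [h1] at h4
    omega
  omega

lemma ev_mul_mod (h3 : 3 ∣ Fintype.card C) (u v : Un C) :
    ev (u * v) % 3 = (ev u % 3) * (ev v % 3) % 3 := by
  have h1 : ev (u * v) ≡ ev u * ev v [MOD 3] := (ev_mul u v).of_dvd h3
  have h2 : ev (u * v) % 3 = (ev u * ev v) % 3 := h1
  rw [h2, Nat.mul_mod]

lemma ev_neg_one_mod (h3 : 3 ∣ Fintype.card C) : ev (-1 : Un C) % 3 = 2 := by
  have h1 : ev (-1 : Un C) + 1 ≡ 0 [MOD 3] := (ev_neg_one_add (C := C)).of_dvd h3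
  have h2 : (ev (-1 : Un C) + 1) % 3 = 0 := h1
  omega

lemma ev_one_mod (h3 : 3 ∣ Fintype.card C) : ev (1 : Un C) % 3 = 1 := by
  have h1 := ev_mul_mod h3 (1 : Un C) 1
  rw [mul_one] at h1
  rcases ev_mod h3 (1 : Un C) with h | h
  · exact h
  · rw [h] at h1
    omega

lemma ev_neg_mod (h3 : 3 ∣ Fintype.card C) (u : Un C) (h : ev u % 3 = 1) :
    ev (-1 * u) % 3 = 2 := by
  rw [ev_mul_mod h3, ev_neg_one_mod h3, h]

lemma ev_neg_mod' (h3 : 3 ∣ Fintype.card C) (u : Un C) (h : ev u % 3 = 2) :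
    ev (-1 * u) % 3 = 1 := by
  rw [ev_mul_mod h3, ev_neg_one_mod h3, h]

lemma ev_inv_mod (h3 : 3 ∣ Fintype.card C) (u : Un C) (h : ev u % 3 = 1) :
    ev u⁻¹ % 3 = 1 := by
  have h1 := ev_mul_mod h3 u u⁻¹
  rw [mul_inv_cancel, ev_one_mod h3, h] at h1
  omega

/-- the partial norm -/
noncomputable def XX (w : MonoidAlgebra ℤ C) : MonoidAlgebra ℤ C :=
  ∏ u : Un C with ev u % 3 = 1, su u w

/-- the full norm -/
noncomputable def YY (w : MonoidAlgebra ℤ C) : MonoidAlgebra ℤ C :=
  ∏ u : Un C, su u w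

lemma su_YY (v : Un C) (w : MonoidAlgebra ℤ C) : su v (YY w) = YY w := by
  unfold YY
  rw [map_prod]
  exact Fintype.prod_equiv (Equiv.mulLeft v) _ _ (fun u => su_su v u w)

lemma XX_mul (h3 : 3 ∣ Fintype.card C) (w : MonoidAlgebra ℤ C) :
    XX w * su (-1) (XX w) = YY w := by
  unfold XX YY
  rw [map_prod, ← Finset.prod_filter_mul_prod_filter_not univ (fun u : Un C => ev u % 3 = 1)]
  congr 1
  refine Finset.prod_nbij' (fun u => -1 * u) (fun u => -1 * u) ?_ ?_ ?_ ?_ ?_
  · intro u hu
    simp only [Finset.mem_filter, Finset.mem_univ, true_and] at hu ⊢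
    rw [ev_neg_mod h3 u hu]
    decide
  · intro u hu
    simp only [Finset.mem_filter, Finset.mem_univ, true_and] at hu ⊢
    exact ev_neg_mod' h3 u ((ev_mod h3 u).resolve_left hu)
  · intro u _
    simp
  · intro u _
    simp
  · intro u _
    exact su_su _ _ _

lemma YY_mul (w w' : MonoidAlgebra ℤ C) : YY (w * w') = YY w * YY w' := by
  unfold YY
  rw [← Finset.prod_mul_distrib]
  exact Finset.prod_congr rfl (fun u _ => map_mul _ _ _)

lemma YY_one : YY (1 : MonoidAlgebra ℤ C) = 1 := by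
  unfold YY
  exact Finset.prod_eq_one (fun u _ => map_one _)

/-- the partial norm of a unit is a trivial unit -/
theorem XX_triv [IsCyclic C] (h3 : 3 ∣ Fintype.card C) (w w' : MonoidAlgebra ℤ C)
    (hw : w * w' = 1) :
    ∃ t : C, XX w = MonoidAlgebra.single t 1 ∨ XX w = MonoidAlgebra.single t (-1) := by
  apply triv_unit
  intro ψ
  obtain ⟨z, hz⟩ := inv_int (YY w) (fun u => su_YY u w) ψ
  obtain ⟨z', hz'⟩ := inv_int (YY w') (fun u => su_YY u w') ψ
  have h1 : z * z' = 1 := by
    have h2 : ((z * z' : ℤ) : ℂ) = ((1 : ℤ) : ℂ) := by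
      push_cast
      rw [← hz, ← hz', ← map_mul, ← YY_mul, hw, YY_one, map_one]
    exact_mod_cast h2
  have h2 : z = 1 ∨ z = -1 := Int.isUnit_iff.1 (IsUnit.of_mul_eq_one z' h1)
  have h3' := congrArg (chr ψ) (XX_mul h3 w)
  rw [map_mul, chr_neg, Complex.mul_conj, hz, Complex.normSq_eq_norm_sq] at h3'
  have h4 : ‖chr ψ (XX w)‖ ^ 2 = (z : ℝ) := by exact_mod_cast h3'
  rcases h2 with h2 | h2
  · rw [h2, Int.cast_one] at h4
    have h5 : (0 : ℝ) ≤ ‖chr ψ (XX w)‖ := norm_nonneg _
    nlinarith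
  · rw [h2] at h4
    push_cast at h4
    have h5 : (0 : ℝ) ≤ ‖chr ψ (XX w)‖ ^ 2 := sq_nonneg _
    linarith

/-- products of elements congruent to one -/
lemma prod_one_add {R ι : Type*} [CommRing R] (q : ℤ) (f : ι → R) (s : Finset ι) :
    ∃ r : R, ∏ u ∈ s, (1 + q • f u) = 1 + q • ∑ u ∈ s, f u + (q * q) • r := by
  induction s using Finset.induction_on with
  | empty => exact ⟨0, by simp⟩
  | insert a s ha ih =>
    obtain ⟨r, hr⟩ := ih
    refine ⟨r + f a * (∑ u ∈ s, f u) + q • (f a * r), ?_⟩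
    rw [Finset.prod_insert ha, Finset.sum_insert ha, hr]
    simp only [zsmul_eq_mul, Int.cast_mul]
    ring

/-- **the main congruence** -/
theorem unit_cong [IsCyclic C] (h3 : 3 ∣ Fintype.card C) (z w' : MonoidAlgebra ℤ C) (q : ℤ)
    (hq : 3 ≤ q) (hw : (1 + q • z) * w' = 1) (x : C) :
    q ∣ ∑ u : Un C with ev u % 3 = 1, z.coeff (x ^ ev u) := by
  obtain ⟨t, ht⟩ := XX_triv h3 _ _ hw
  obtain ⟨r, hr⟩ := prod_one_add q (fun u : Un C => su u z) (univ.filter (fun u => ev u % 3 = 1))
  have h1 : XX (1 + q • z) = 1 + q • ∑ u : Un C with ev u % 3 = 1, su u z + (q * q) • r := by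
    rw [← hr]
    unfold XX
    apply Finset.prod_congr rfl
    intro u _
    rw [map_add, map_one, map_zsmul]
  -- the partial norm is one
  have h2 : ∀ ε : ℤ, (ε = 1 ∨ ε = -1) → XX (1 + q • z) = MonoidAlgebra.single t ε →
      XX (1 + q • z) = 1 := by
    intro ε hε he
    have h3' : MonoidAlgebra.single t ε = 1 + q •
        (∑ u : Un C with ev u % 3 = 1, su u z + q • r) := by
      rw [← he, h1, smul_add, smul_smul, add_assoc]
    by_cases htt : t = 1
    · have h4 := congrArg (fun y => MonoidAlgebra.coeff y 1) h3'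
      simp only [MonoidAlgebra.coeff_single, MonoidAlgebra.coeff_add,
        MonoidAlgebra.one_def, MonoidAlgebra.coeff_smul, Finsupp.add_apply,
        Finsupp.smul_apply, Finsupp.single_apply] at h4
      rw [if_pos htt, if_pos trivial, smul_eq_mul] at h4
      have h5 : q ∣ ε - 1 := ⟨_, by rw [h4, add_sub_cancel_left]⟩
      have h6 : ε = 1 := by
        rcases hε with h | h
        · exact h
        · exfalso
          rw [h] at h5
          have := Int.le_of_dvd (by norm_num) ((Int.dvd_neg).2 h5)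
          norm_num at this
          omega
      rw [he, h6, htt]
      rfl
    · have h4 := congrArg (fun y => MonoidAlgebra.coeff y t) h3'
      simp only [MonoidAlgebra.coeff_single, MonoidAlgebra.coeff_add,
        MonoidAlgebra.one_def, MonoidAlgebra.coeff_smul, Finsupp.add_apply,
        Finsupp.smul_apply, Finsupp.single_apply] at h4
      rw [if_pos trivial, if_neg (fun h => htt h.symm), zero_add, smul_eq_mul] at h4
      have h5 : q ∣ ε := ⟨_, h4⟩
      exfalso
      rcases hε with h | h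
      · rw [h] at h5
        have := Int.le_of_dvd (by norm_num) h5
        omega
      · rw [h] at h5
        have := Int.le_of_dvd (by norm_num) ((Int.dvd_neg).2 h5)
        norm_num at this
        omega
  have h5 : XX (1 + q • z) = 1 := by
    rcases ht with h | h
    · exact h2 1 (Or.inl rfl) h
    · exact h2 (-1) (Or.inr rfl) h
  rw [h5] at h1
  have h6 : q • (∑ u : Un C with ev u % 3 = 1, su u z + q • r) = 0 := by
    have h7 : (1 : MonoidAlgebra ℤ C) + q • (∑ u : Un C with ev u % 3 = 1, su u z + q • r) =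
        1 + 0 := by
      rw [add_zero, smul_add, smul_smul, ← add_assoc]
      exact h1.symm
    exact add_left_cancel h7
  have h7 := congrArg (fun y => MonoidAlgebra.coeff y x) h6
  simp only [MonoidAlgebra.coeff_add, MonoidAlgebra.coeff_smul, Finsupp.add_apply,
    Finsupp.smul_apply, MonoidAlgebra.coeff_sum, Finsupp.finsetSum_apply,
    MonoidAlgebra.coeff_zero, Finsupp.coe_zero, Pi.zero_apply, smul_eq_mul] at h7
  have h8 : ∑ u : Un C with ev u % 3 = 1, (su u z).coeff x + q * r.coeff x = 0 := by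
    rcases mul_eq_zero.1 h7 with h | h
    · omega
    · exact h
  have h9 : ∑ u : Un C with ev u % 3 = 1, (su u z).coeff x =
      ∑ u : Un C with ev u % 3 = 1, z.coeff (x ^ ev u) := by
    refine Finset.sum_nbij' (fun u => u⁻¹) (fun u => u⁻¹) ?_ ?_ ?_ ?_ ?_
    · intro u hu
      simp only [Finset.mem_filter, Finset.mem_univ, true_and] at hu ⊢
      exact ev_inv_mod h3 u hu
    · intro u hu
      simp only [Finset.mem_filter, Finset.mem_univ, true_and] at hu ⊢
      exact ev_inv_mod h3 u hu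
    · intro u _
      exact inv_inv u
    · intro u _
      exact inv_inv u
    · intro u _
      exact su_coeff' u z x
  rw [← h9]
  exact ⟨-r.coeff x, by rw [mul_neg]; omega⟩

end main

end Pool.Agent.H414.W1
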