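import Pool.Agent.H414.W1.Phase
import Pool.Agent.H414.W1.Add
import Pool.Agent.H414.W1.Unit2

/-!
# The slice sums of invertible matrices over integral group rings of finite groups
-/

set_option autoImplicit false
set_option linter.unusedSectionVars false

namespace Pool.Agent.H414.W1

open Finset Pool.Agent.H23R2 H219.Wh Pool.Agent.Y72.Log
open scoped Classical

section mats

variable {n G : Type*} [Fintype n] [DecidableEq n] [Group G] [Fintype G]
  {p m : ℕ} [NeZero m] {P : G → Prop}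

lemma mul_coeff_eq (x y : MonoidAlgebra ℤ G) (g : G) :
    (x * y).coeff g = ∑ a, ∑ b, if a * b = g then x.coeff a * y.coeff b else 0 := by
  have hx : x = ∑ c, MonoidAlgebra.single c (x.coeff c) := by
    apply MonoidAlgebra.coeff_injective
    ext g
    rw [MonoidAlgebra.coeff_sum, Finsupp.finsetSum_apply]
    simp [Finsupp.single_apply]
  have hy : y = ∑ c, MonoidAlgebra.single c (y.coeff c) := by
    apply MonoidAlgebra.coeff_injective
    ext g
    rw [MonoidAlgebra.coeff_sum, Finsupp.finsetSum_apply]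
    simp [Finsupp.single_apply]
  conv_lhs => rw [hx, hy]
  rw [Finset.sum_mul_sum, MonoidAlgebra.coeff_sum, Finsupp.finsetSum_apply]
  apply Finset.sum_congr rfl
  intro a _
  rw [MonoidAlgebra.coeff_sum, Finsupp.finsetSum_apply]
  apply Finset.sum_congr rfl
  intro b _
  rw [MonoidAlgebra.single_mul_single, MonoidAlgebra.coeff_single, Finsupp.single_apply]

lemma cf_mul (V V' : Matrix n n (MonoidAlgebra ℤ G)) :
    cf (V * V') = tot gr3 (mul3 (cf V) (cf V')) := by
  funext i l g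
  show ((V * V') i l).coeff g = _
  rw [Matrix.mul_apply, MonoidAlgebra.coeff_sum, Finsupp.finsetSum_apply]
  unfold tot
  rw [Finset.sum_filter, Fintype.sum_prod_type]
  simp_rw [Fintype.sum_prod_type]
  rw [Finset.sum_comm]
  apply Finset.sum_congr rfl
  intro j _
  rw [mul_coeff_eq]
  rfl

lemma ip_half_cf {V V' : Matrix n n (MonoidAlgebra ℤ G)} (h : V * V' = 1) (i i' : n) (g : G) :
    ∑ j, ∑ a, ∑ b, (if (id a : G) * id b = g then cf V i j a * cf V' j i' b else 0)
    = if i = i' ∧ g = 1 then 1 else 0 := by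
  have h1 := congrArg (fun M : Matrix n n (MonoidAlgebra ℤ G) => (M i i').coeff g) h
  simp only [Matrix.mul_apply, MonoidAlgebra.coeff_sum, Finsupp.finsetSum_apply, mul_coeff_eq,
    Matrix.one_apply] at h1
  have h2 : (if i = i' then (1 : MonoidAlgebra ℤ G) else 0).coeff g =
      if i = i' ∧ g = 1 then 1 else 0 := by
    by_cases hij : i = i'
    · rw [if_pos hij, one_coeff']
      simp only [hij, true_and]
    · rw [if_neg hij, if_neg (fun hc => hij hc.1)]
      rfl
  rw [← h2, ← h1]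
  rfl

lemma ip_cf {V V' : Matrix n n (MonoidAlgebra ℤ G)} (h : V * V' = 1) (h' : V' * V = 1) :
    IP (id : G → G) (cf V) (cf V') :=
  ⟨fun i i' g => by convert ip_half_cf h i i' g, fun i i' g => by convert ip_half_cf h' i i' g⟩

lemma nearOne_any {X Z : Matrix n n (MonoidAlgebra ℤ G)} {q : ℤ} (h : X = 1 + q • Z) :
    NearOne q (cf X) := by
  intro i j g
  refine ⟨(Z i j).coeff g, ?_⟩
  show (X i j).coeff g - _ = _
  rw [h, Matrix.add_apply, MonoidAlgebra.coeff_add, Finsupp.add_apply, Matrix.smul_apply,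
    MonoidAlgebra.coeff_smul, Finsupp.smul_apply, Matrix.one_apply, smul_eq_mul]
  have h1 : (if i = j then (1 : MonoidAlgebra ℤ G) else 0).coeff g =
      if i = j ∧ g = 1 then 1 else 0 := by
    by_cases hij : i = j
    · rw [if_pos hij, one_coeff']
      simp only [hij, true_and]
    · rw [if_neg hij, if_neg (fun hc => hij hc.1)]
      rfl
  rw [h1]
  by_cases hc : i = j ∧ g = 1
  · rw [if_pos hc, if_pos hc]
    ring
  · rw [if_neg hc, if_neg hc]
    ring

/-- powers -/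
lemma Ez_pow (X : (Matrix n n (MonoidAlgebra ℤ G))ˣ) (hP : IsCls p P)
    {κ : (ZMod m → G) → ZMod m} (hκ : IsPh P κ) (k : ℕ) :
    Ez (id : G → G) (cf (X.val ^ k)) (cf ((X⁻¹).val ^ k)) P κ =
      (k : ZMod m) * Ez (id : G → G) (cf X.val) (cf (X⁻¹).val) P κ := by
  have hip : ∀ Y : (Matrix n n (MonoidAlgebra ℤ G))ˣ, IP (id : G → G) (cf Y.val) (cf (Y⁻¹).val) :=
    fun Y => ip_cf Y.mul_inv Y.inv_mul
  have hk : ∀ k : ℕ, IP (id : G → G) (cf (X.val ^ k)) (cf ((X⁻¹).val ^ k)) := by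
    intro k
    have h1 := hip (X ^ k)
    rwa [← inv_pow, Units.val_pow_eq_pow_val, Units.val_pow_eq_pow_val] at h1
  induction k with
  | zero =>
    have h1 := Ez_mul (hk 0) (hk 0) hP hκ
    rw [← cf_mul, ← cf_mul] at h1
    simp only [pow_zero, mul_one] at h1
    rw [pow_zero, pow_zero, Nat.cast_zero, zero_mul]
    exact left_eq_add.1 h1
  | succ k ih =>
    have h1 := Ez_mul (hip X) (hk k) hP hκ
    rw [← cf_mul, ← cf_mul, ← pow_succ', ← pow_succ, ih] at h1
    rw [h1]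
    push_cast
    ring

end mats

section count

variable {G C : Type*} [Group G] [Fintype G] [CommGroup C] [Fintype C] (ι : C →* G) (c0 : C)

/-- the division-like set attached to the field `ℚ(√-3)` -/
def Rset (g : G) : Prop := ∃ u : Un C, ev u % 3 = 1 ∧ IsConj (ι (c0 ^ ev u)) g

/-- the number of representations -/
noncomputable def cR : ℕ :=
  ((univ : Finset (Un C × G)).filter
    (fun z => ev z.1 % 3 = 1 ∧ z.2 * ι (c0 ^ ev z.1) * z.2⁻¹ = ι c0)).card

lemma cR_pos (h3 : 3 ∣ Fintype.card C) : 0 < cR ι c0 := by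
  apply Finset.card_pos.2
  refine ⟨(1, 1), ?_⟩
  simp only [Finset.mem_filter, Finset.mem_univ, true_and]
  refine ⟨ev_one_mod h3, ?_⟩
  rw [pow_ev_one]
  simp

lemma card_fibre (h3 : 3 ∣ Fintype.card C) {g : G} (hg : Rset ι c0 g) :
    ((univ : Finset (Un C × G)).filter
      (fun z => ev z.1 % 3 = 1 ∧ z.2 * ι (c0 ^ ev z.1) * z.2⁻¹ = g)).card = cR ι c0 := by
  obtain ⟨v, hv, hc⟩ := hg
  obtain ⟨y, hy⟩ := isConj_iff.1 hc
  unfold cR
  refine Finset.card_nbij' (fun z => (z.1 * v⁻¹, y⁻¹ * z.2)) (fun z => (z.1 * v, y * z.2))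
    ?_ ?_ ?_ ?_
  · intro z hz
    simp only [Finset.coe_filter, Finset.mem_univ, true_and, Set.mem_ofPred_eq] at hz ⊢
    obtain ⟨h1, h2⟩ := hz
    refine ⟨?_, ?_⟩
    · rw [ev_mul_mod h3, h1, ev_inv_mod h3 v hv]
    · have h4 : (y⁻¹ * z.2) * ι (c0 ^ ev z.1) * (y⁻¹ * z.2)⁻¹ = ι (c0 ^ ev v) := by
        calc (y⁻¹ * z.2) * ι (c0 ^ ev z.1) * (y⁻¹ * z.2)⁻¹ =
            y⁻¹ * (z.2 * ι (c0 ^ ev z.1) * z.2⁻¹) * y := by group
          _ = ι (c0 ^ ev v) := by rw [h2, ← hy]; group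
      have h5 := congrArg (fun t => t ^ ev v⁻¹) h4
      simp only [conj_pow, ← map_pow, pow_ev_ev, mul_inv_cancel, pow_ev_one] at h5
      exact h5
  · intro z hz
    simp only [Finset.coe_filter, Finset.mem_univ, true_and, Set.mem_ofPred_eq] at hz ⊢
    obtain ⟨h1, h2⟩ := hz
    refine ⟨?_, ?_⟩
    · rw [ev_mul_mod h3, h1, hv]
    · have h5 := congrArg (fun t => t ^ ev v) h2
      simp only [conj_pow, ← map_pow, pow_ev_ev] at h5
      calc y * z.2 * ι (c0 ^ ev (z.1 * v)) * (y * z.2)⁻¹ =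
          y * (z.2 * ι (c0 ^ ev (z.1 * v)) * z.2⁻¹) * y⁻¹ := by group
        _ = g := by rw [h5, hy]
  · intro z _
    simp
  · intro z _
    simp

/-- the double sum -/
lemma sum_Rset (h3 : 3 ∣ Fintype.card C) (f : G → ℤ) :
    ∑ u : Un C with ev u % 3 = 1, ∑ x : G, f (x * ι (c0 ^ ev u) * x⁻¹) =
      (cR ι c0 : ℤ) * ∑ g with Rset ι c0 g, f g := by
  rw [Finset.sum_filter]
  have h1 : ∑ u : Un C, (if ev u % 3 = 1 then ∑ x : G, f (x * ι (c0 ^ ev u) * x⁻¹) else 0) =
      ∑ z : Un C × G with ev z.1 % 3 = 1, f (z.2 * ι (c0 ^ ev z.1) * z.2⁻¹) := by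
    rw [Finset.sum_filter, Fintype.sum_prod_type]
    apply Finset.sum_congr rfl
    intro u _
    by_cases hu : ev u % 3 = 1
    · simp only [hu, if_true]
    · simp only [hu, if_false, Finset.sum_const_zero]
  rw [h1, ← Finset.sum_fiberwise_of_maps_to
    (s := (univ : Finset (Un C × G)).filter (fun z => ev z.1 % 3 = 1))
    (t := univ.filter (fun g => Rset ι c0 g))
    (g := fun z => z.2 * ι (c0 ^ ev z.1) * z.2⁻¹)]
  · rw [Finset.mul_sum]
    apply Finset.sum_congr rfl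
    intro g hg
    simp only [Finset.mem_filter, Finset.mem_univ, true_and] at hg
    rw [Finset.filter_filter, Finset.sum_congr rfl (g := fun _ => f g), Finset.sum_const,
      nsmul_eq_mul, card_fibre ι c0 h3 hg]
    intro z hz
    simp only [Finset.mem_filter, Finset.mem_univ, true_and] at hz
    rw [hz.2]
  · intro z hz
    simp only [Finset.mem_filter, Finset.mem_univ, true_and] at hz ⊢
    exact ⟨z.1, hz, isConj_iff.2 ⟨z.2, rfl⟩⟩

end count

section main

variable {n G C T : Type*} [Fintype n] [DecidableEq n] [Group G] [Fintype G] [CommGroup C]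
  [Fintype C] [IsCyclic C] [Fintype T] [DecidableEq T] (e : G ≃ T × C) (ι : C →* G)
  (he : ∀ z c, e (z * ι c) = ((e z).1, (e z).2 * c)) (c0 : C)

include e he in
/-- the congruence for the trace -/
lemma trace_R (h3 : 3 ∣ Fintype.card C) {Y Y' W : Matrix n n (MonoidAlgebra ℤ G)} {q : ℤ}
    (hq : 3 ≤ q) (hY : Y = 1 + q • W) (hYY : Y * Y' = 1) :
    q ∣ (cR ι c0 : ℤ) * ∑ g with Rset ι c0 g, ∑ i, (W i i).coeff g := by
  obtain ⟨c, hc⟩ := du_near e ι he hY
  have hq0 : q ≠ 0 := by omega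
  -- the trace
  have h1 : (blkR (indR e ι he) Y).trace = (Fintype.card (n × T) : MonoidAlgebra ℤ C) +
      q • (blkR (indR e ι he) W).trace := by
    rw [hY, map_add, map_one, map_zsmul, Matrix.trace_add, Matrix.trace_one, Matrix.trace_smul]
  have h2 : du e ι he Y = 1 + q • ((blkR (indR e ι he) W).trace + q • c) := by
    rw [hc, h1]
    simp only [zsmul_eq_mul]
    ring
  have h4 : (1 + q • ((blkR (indR e ι he) W).trace + q • c)) * du e ι he Y' = 1 := by
    rw [← h2, ← du_mul, hYY, du_one]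
  have h5 := unit_cong h3 _ _ q hq h4 c0
  have h6 : q ∣ ∑ u : Un C with ev u % 3 = 1, ((blkR (indR e ι he) W).trace).coeff (c0 ^ ev u) := by
    have h7 : ∑ u : Un C with ev u % 3 = 1,
        ((blkR (indR e ι he) W).trace + q • c).coeff (c0 ^ ev u) =
        ∑ u : Un C with ev u % 3 = 1, ((blkR (indR e ι he) W).trace).coeff (c0 ^ ev u) +
        q * ∑ u : Un C with ev u % 3 = 1, c.coeff (c0 ^ ev u) := by
      rw [Finset.mul_sum, ← Finset.sum_add_distrib]
      apply Finset.sum_congr rfl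
      intro u _
      rw [MonoidAlgebra.coeff_add, Finsupp.add_apply, MonoidAlgebra.coeff_smul,
        Finsupp.smul_apply, smul_eq_mul]
    rw [h7] at h5
    exact (dvd_add_left (dvd_mul_right q _)).1 h5
  have h7 := sum_Rset ι c0 h3 (fun g => ∑ i, (W i i).coeff g)
  rw [← h7]
  have h8 : ∑ u : Un C with ev u % 3 = 1, ∑ x : G, ∑ i, (W i i).coeff (x * ι (c0 ^ ev u) * x⁻¹) =
      (Fintype.card C : ℤ) * ∑ u : Un C with ev u % 3 = 1,
        ((blkR (indR e ι he) W).trace).coeff (c0 ^ ev u) := by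
    rw [Finset.mul_sum]
    apply Finset.sum_congr rfl
    intro u _
    exact (trace_coeff e ι he W (c0 ^ ev u)).symm
  rw [h8]
  exact Dvd.dvd.mul_left h6 _

include e he in
/-- **vanishing of the slice sums over the sets attached to `ℚ(√-3)`** -/
theorem Ez_R {p : ℕ} (hp : p.Prime) (h3 : 3 ∣ Fintype.card C) (hR : IsCls p (Rset ι c0))
    (X : (Matrix n n (MonoidAlgebra ℤ G))ˣ) {i m : ℕ} [NeZero m] (hm : m = p ^ (i + 1))
    {κ : (ZMod m → G) → ZMod m} (hκ : IsPh (Rset ι c0) κ) :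
    Ez (id : G → G) (cf X.val) (cf (X⁻¹).val) (Rset ι c0) κ = 0 := by
  obtain ⟨k, hk, Z, hZ⟩ := exists_pow_near X hp
  -- the exponent
  set D := cR ι c0 * k with hD
  have hD0 : 0 < D := Nat.mul_pos (cR_pos ι c0 h3) hk
  set b := i + D + 1 with hb
  obtain ⟨W, hW⟩ := pow_near hZ (b - 1)
  rw [Nat.sub_add_cancel (by omega)] at hW
  rw [← pow_mul] at hW
  set K := k * p ^ (b - 1) with hK
  set r := p ^ (2 * b - (i + 1)) with hr
  have hr0 : NeZero r := ⟨pow_ne_zero _ hp.ne_zero⟩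
  have hmr0 : NeZero (m * r) := ⟨mul_ne_zero (NeZero.ne m) (NeZero.ne r)⟩
  have hmr : m * r = p ^ (2 * b) := by
    rw [hm, hr, ← pow_add]
    congr 1
    omega
  have hmr' : m * r = p ^ ((2 * b - 1) + 1) := by
    rw [hmr]
    congr 1
  obtain ⟨κ1, hκ1⟩ := exists_isPh (m := m * r) hp hmr' hR
  have hip : ∀ Y : (Matrix n n (MonoidAlgebra ℤ G))ˣ, IP (id : G → G) (cf Y.val) (cf (Y⁻¹).val) :=
    fun Y => ip_cf Y.mul_inv Y.inv_mul
  have hblock := Ez_block (r := r) (hip X) hR hκ hκ1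
  set L := Ez (id : G → G) (cf X.val) (cf (X⁻¹).val) (Rset ι c0) κ1 with hL
  rw [← hblock]
  -- the powers
  have hpow := Ez_pow X hR hκ1 K
  rw [← hL] at hpow
  -- the nearness
  have hinv : (X⁻¹).val ^ K = 1 + ((p : ℤ) ^ b) • (-(W * (X⁻¹).val ^ K)) := by
    have h1 : X.val ^ K * (X⁻¹).val ^ K = 1 := by
      rw [← Units.val_pow_eq_pow_val, ← Units.val_pow_eq_pow_val, inv_pow, Units.mul_inv]
    rw [hW, add_mul, one_mul, smul_mul_assoc] at h1
    rw [smul_neg, ← sub_eq_add_neg, eq_sub_iff_add_eq]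
    exact h1
  have hnear := near (A := cf (X.val ^ K)) (B := cf ((X⁻¹).val ^ K)) (P := Rset ι c0) hp hR hmr'
    (a := b) (nearOne_any hW) (nearOne_any hinv) hκ1
  have hdiag : ∑ g with Rset ι c0 g, ∑ j, cf (X.val ^ K) j j g =
      (p : ℤ) ^ b * ∑ g with Rset ι c0 g, ∑ j, (W j j).coeff g := by
    rw [Finset.mul_sum]
    apply Finset.sum_congr rfl
    intro g hg
    simp only [Finset.mem_filter, Finset.mem_univ, true_and] at hg
    rw [Finset.mul_sum]
    apply Finset.sum_congr rfl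
    intro j _
    have hg1 : g ≠ 1 := fun hc => hR.not_one (hc ▸ hg)
    show ((X.val ^ K) j j).coeff g = _
    rw [hW, Matrix.add_apply, MonoidAlgebra.coeff_add, Finsupp.add_apply, Matrix.smul_apply,
      MonoidAlgebra.coeff_smul, Finsupp.smul_apply, Matrix.one_apply_eq, one_coeff', if_neg hg1,
      zero_add, smul_eq_mul]
  rw [hdiag] at hnear
  have hq3 : (3 : ℤ) ≤ (p : ℤ) ^ b := by
    have h1 : 2 ^ 2 ≤ p ^ b := by
      calc 2 ^ 2 ≤ 2 ^ b := Nat.pow_le_pow_right (by norm_num) (by omega)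
        _ ≤ p ^ b := Nat.pow_le_pow_left hp.two_le b
    have h2 : (4 : ℤ) ≤ (p : ℤ) ^ b := by exact_mod_cast h1
    omega
  have hYY : X.val ^ K * (X⁻¹).val ^ K = 1 := by
    rw [← Units.val_pow_eq_pow_val, ← Units.val_pow_eq_pow_val, inv_pow, Units.mul_inv]
  have htr := trace_R e ι he c0 h3 hq3 hW hYY
  obtain ⟨t, ht⟩ := htr
  -- the slice sum is small
  have h4 : (p : ℤ) ^ (2 * b) ∣ (cR ι c0 : ℤ) *
      EE (id : G → G) (cf (X.val ^ K)) (cf ((X⁻¹).val ^ K)) (Rset ι c0) κ1 := by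
    have h5 := Dvd.dvd.mul_left hnear (cR ι c0 : ℤ)
    rw [mul_sub] at h5
    have h6 : (p : ℤ) ^ (2 * b) ∣ (cR ι c0 : ℤ) * ((p : ℤ) ^ b *
        ∑ g with Rset ι c0 g, ∑ j, (W j j).coeff g) := by
      refine ⟨t, ?_⟩
      rw [mul_left_comm, ht, two_mul, pow_add]
      ring
    exact (dvd_sub_left h6).1 h5
  have h5 : ((cR ι c0 * K : ℕ) : ZMod (m * r)) * L = 0 := by
    rw [Nat.cast_mul, mul_assoc, ← hpow, ← Ez_eq]
    have h6 : (((cR ι c0 : ℤ) * EE (id : G → G) (cf (X.val ^ K)) (cf ((X⁻¹).val ^ K))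
        (Rset ι c0) κ1 : ℤ) : ZMod (m * r)) = 0 := by
      have hd : ((m * r : ℕ) : ℤ) = (p : ℤ) ^ (2 * b) := by
        rw [hmr]
        push_cast
        rfl
      refine (ZMod.intCast_zmod_eq_zero_iff_dvd _ _).2 ?_
      rw [hd]
      exact h4
    rw [Int.cast_mul] at h6
    exact_mod_cast h6
  have h6 : p ^ (2 * b) ∣ cR ι c0 * K * L.val := by
    rw [← hmr, ← ZMod.natCast_eq_zero_iff, Nat.cast_mul, ZMod.natCast_zmod_val]
    exact h5
  have h7 : p ^ (b + 1) ∣ D * L.val := by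
    have h8 : cR ι c0 * K * L.val = p ^ (b - 1) * (D * L.val) := by
      rw [hK, hD]
      ring
    have h9 : p ^ (2 * b) = p ^ (b - 1) * p ^ (b + 1) := by
      rw [← pow_add]
      congr 1
      omega
    rw [h8, h9] at h6
    exact Nat.dvd_of_mul_dvd_mul_left (pow_pos hp.pos _) h6
  have h8 : m ∣ L.val := by
    obtain ⟨v, D', hD', hDD⟩ := Nat.exists_eq_pow_mul_and_not_dvd hD0.ne' p hp.ne_one
    have hv : v ≤ D := by
      have h9 : p ^ v ∣ D := ⟨D', hDD⟩
      have h10 := Nat.le_of_dvd hD0 h9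
      have h11 : v < p ^ v := Nat.lt_pow_self hp.one_lt
      omega
    rw [hDD, mul_assoc] at h7
    have h9 : p ^ v * p ^ (i + 1) ∣ p ^ v * (D' * L.val) := by
      refine dvd_trans ?_ h7
      rw [← pow_add]
      exact pow_dvd_pow _ (by omega)
    have h10 := Nat.dvd_of_mul_dvd_mul_left (pow_pos hp.pos _) h9
    have h11 : p ^ (i + 1) ∣ L.val := (Nat.Coprime.dvd_mul_left (Nat.Coprime.pow_left _
      ((Nat.Prime.coprime_iff_not_dvd hp).2 hD'))).1 h10
    rw [← hm] at h11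
    exact h11
  have h9 : L = ((L.val : ℕ) : ZMod (m * r)) := (ZMod.natCast_zmod_val L).symm
  rw [h9, map_natCast, ZMod.natCast_eq_zero_iff]
  exact h8

end main

end Pool.Agent.H414.W1
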